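import Mathlib

/-! General lemmas for counting subtrees and connected vertex sets. -/

namespace MP589357

open SimpleGraph

variable {V : Type*}

/-- A graph with a rank function such that adjacent vertices have different ranks and every vertex
has at most one neighbour of smaller rank is acyclic. -/
theorem acyclic_of_rank (G : SimpleGraph V) (r : V → ℕ)
    (h1 : ∀ a b, G.Adj a b → r a ≠ r b)
    (h2 : ∀ v a b, G.Adj v a → G.Adj v b → r a < r v → r b < r v → a = b) :
    G.IsAcyclic := by
  classical
  intro v c hc
  -- vertex of maximal rank in the support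
  obtain ⟨m, hm, hmax⟩ := Finset.exists_max_image c.support.toFinset r ⟨v, by simp⟩
  rw [List.mem_toFinset] at hm
  have hc' : (c.rotate m hm).IsCycle := hc.rotate hm
  set d := c.rotate m hm with hd
  have hnn : ¬ d.Nil := hc'.not_nil
  have a1 : G.Adj m d.snd := d.adj_snd hnn
  have a2 : G.Adj m d.penultimate := (d.adj_penultimate hnn).symm
  have hs : ∀ x ∈ d.support, r x ≤ r m := by
    intro x hx
    apply hmax
    rw [List.mem_toFinset]
    rw [hd] at hx
    exact (Walk.mem_support_rotate_iff c m hm).mp hx
  have m1 : d.snd ∈ d.support := Walk.getVert_mem_support d 1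
  have m2 : d.penultimate ∈ d.support := Walk.getVert_mem_support d (d.length - 1)
  have l1 : r d.snd < r m := lt_of_le_of_ne (hs _ m1) (fun h => h1 _ _ a1 h.symm)
  have l2 : r d.penultimate < r m := lt_of_le_of_ne (hs _ m2) (fun h => h1 _ _ a2 h.symm)
  exact hc'.snd_ne_penultimate (h2 m _ _ a1 a2 l1 l2)

theorem reach_of_adj_reach {A B : SimpleGraph V} (h : ∀ a b, A.Adj a b → B.Reachable a b)
    {a b : V} (hab : A.Reachable a b) : B.Reachable a b := by
  obtain ⟨w⟩ := hab
  induction w with
  | nil => exact Reachable.refl _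
  | cons hadj _ ih => exact (h _ _ hadj).trans ih

/-- Two subgraphs on the same vertex set, the smaller connected, the larger acyclic, agree. -/
theorem subgraph_unique {G : SimpleGraph V} (H H' : G.Subgraph) (hv : H.verts = H'.verts)
    (hle : ∀ u v, H.Adj u v → H'.Adj u v) (hc : H.coe.Connected) (ha : H'.coe.IsAcyclic) :
    H = H' := by
  apply Subgraph.ext hv
  funext u v
  apply propext
  refine ⟨hle u v, fun h' => ?_⟩
  by_contra hn
  have hu' : u ∈ H'.verts := H'.edge_vert h'
  have hv' : v ∈ H'.verts := H'.edge_vert h'.symm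
  have hu : u ∈ H.verts := hv ▸ hu'
  have hvv : v ∈ H.verts := hv ▸ hv'
  have hbr : H'.coe.IsBridge s(⟨u, hu'⟩, ⟨v, hv'⟩) :=
    isAcyclic_iff_forall_adj_isBridge.mp ha (by simpa using h')
  rw [isBridge_iff] at hbr
  apply hbr
  have hr := hc.preconnected ⟨u, hu⟩ ⟨v, hvv⟩
  let f : H.coe →g (H'.coe.deleteEdges {s(⟨u, hu'⟩, ⟨v, hv'⟩)}) :=
    { toFun := fun x => ⟨x.1, hv ▸ x.2⟩
      map_rel' := by
        intro a b hab
        have hab' : H.Adj a.1 b.1 := by simpa using hab
        rw [deleteEdges_adj]
        refine ⟨by simpa using hle _ _ hab', ?_⟩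
        intro hmem
        rw [Set.mem_singleton_iff, Sym2.eq_iff] at hmem
        rcases hmem with ⟨e1, e2⟩ | ⟨e1, e2⟩
        · have e1' : a.1 = u := congrArg Subtype.val e1
          have e2' : b.1 = v := congrArg Subtype.val e2
          rw [e1', e2'] at hab'
          exact hn hab'
        · have e1' : a.1 = v := congrArg Subtype.val e1
          have e2' : b.1 = u := congrArg Subtype.val e2
          rw [e1', e2'] at hab'
          exact hn hab'.symm }
  exact hr.map f

/-- In an acyclic graph the endpoints of an edge are not joined by another route. -/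
theorem acyclic_no_detour {G : SimpleGraph V} (ha : G.IsAcyclic) {u v : V} (h : G.Adj u v)
    (B : SimpleGraph V) (hB : ∀ a b, B.Adj a b → G.Adj a b)
    (hn : ¬ B.Adj u v) : ¬ B.Reachable u v := by
  intro hr
  have hbr := isAcyclic_iff_forall_adj_isBridge.mp ha h
  rw [isBridge_iff] at hbr
  apply hbr
  refine hr.mono ?_
  intro a b hab
  rw [deleteEdges_adj]
  refine ⟨hB a b hab, ?_⟩
  intro hmem
  rw [Set.mem_singleton_iff, Sym2.eq_iff] at hmem
  rcases hmem with ⟨e1, e2⟩ | ⟨e1, e2⟩
  · subst e1; subst e2; exact hn hab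
  · subst e1; subst e2; exact hn hab.symm

/-- A connected graph has no nontrivial separated vertex set. -/
theorem connected_no_cut {G : SimpleGraph V} (hc : G.Preconnected) (P : V → Prop)
    (hP : ∀ a b, G.Adj a b → P a → P b) {x y : V} (hx : P x) (hy : ¬ P y) : False := by
  obtain ⟨w⟩ := hc x y
  apply hy
  clear hy
  induction w with
  | nil => exact hx
  | cons hadj _ ih => exact ih (hP _ _ hadj hx)

end MP589357
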