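import Pool.Agent.H755.MstSum

namespace MP589357

open SimpleGraph Finset

section
variable {K N L : ℕ}

/-- The summand of the key inequality. -/
noncomputable def hh (K N L : ℕ) (S : Finset (Vx N L)) : ℤ :=
  (((treesOn (gr K N L) S).card : ℤ) - 1) *
    (((connectedSets (gr K N L)).card : ℤ) * (S.card : ℤ) -
      ∑ S' ∈ connectedSets (gr K N L), (S'.card : ℤ))

theorem diff_le (S : Finset (Vx N L)) :
    ((connectedSets (gr K N L)).card : ℤ) * (S.card : ℤ) -
      ∑ S' ∈ connectedSets (gr K N L), (S'.card : ℤ) ≤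
    ((connectedSets (gr K N L)).card : ℤ) * (Fintype.card (Vx N L) : ℤ) := by
  have h1 : 0 ≤ ∑ S' ∈ connectedSets (gr K N L), (S'.card : ℤ) :=
    Finset.sum_nonneg (fun _ _ => by positivity)
  have h2 : (S.card : ℤ) ≤ (Fintype.card (Vx N L) : ℤ) := by
    exact_mod_cast Finset.card_le_univ S
  have h3 : (0 : ℤ) ≤ ((connectedSets (gr K N L)).card : ℤ) := by positivity
  nlinarith

/-- Bound on the summand from a bound on the number of spanning trees. -/
theorem hh_le (S : Finset (Vx N L)) (hS : S ∈ connectedSets (gr K N L)) (m : ℤ) (_hm : 0 ≤ m)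
    (h : ((treesOn (gr K N L) S).card : ℤ) ≤ m) : hh K N L S ≤
      m * (((connectedSets (gr K N L)).card : ℤ) * (Fintype.card (Vx N L) : ℤ)) := by
  unfold hh
  have h1 := treesOn_pos hS
  have h1' : (1 : ℤ) ≤ ((treesOn (gr K N L) S).card : ℤ) := by exact_mod_cast h1
  have h2 := diff_le (K := K) S
  set t := ((treesOn (gr K N L) S).card : ℤ)
  set D := ((connectedSets (gr K N L)).card : ℤ) * (S.card : ℤ) -
      ∑ S' ∈ connectedSets (gr K N L), (S'.card : ℤ)
  have h3 : (0 : ℤ) ≤ ((connectedSets (gr K N L)).card : ℤ) * (Fintype.card (Vx N L) : ℤ) := by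
    positivity
  set B := ((connectedSets (gr K N L)).card : ℤ) * (Fintype.card (Vx N L) : ℤ)
  calc (t - 1) * D ≤ (t - 1) * B := mul_le_mul_of_nonneg_left h2 (by linarith)
    _ ≤ m * B := mul_le_mul_of_nonneg_right (by linarith) h3

/-- Away from the whole cycle there are one or three spanning trees. -/
theorem tau_le_three (hN : 2 * K + 2 < N) (hK2 : 2 ≤ K) {S : Finset (Vx N L)}
    (hS : S ∈ connectedSets (gr K N L)) (u : Fin N) (hu : Sum.inl u ∉ S) :
    ((treesOn (gr K N L) S).card : ℤ) ≤ 3 := by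
  have hK : K + 1 < N := by omega
  by_cases hm : (Sum.inl ⟨K, by omega⟩ : Vx N L) ∉ S ∨ (Sum.inl ⟨K + 1, hK⟩ : Vx N L) ∉ S ∨
      (Sum.inr none : Vx N L) ∉ S
  · rw [tau_one hK hN hK2 hS u hu hm]; norm_num
  · push Not at hm
    rw [tau_three hK hN hK2 hS u hu hm.1 hm.2.1 hm.2.2]; norm_num

theorem sum_bad_le (hN : 2 * K + 2 < N) (hK2 : 2 ≤ K) [DecidableEq (Finset (Vx N L))] :
    ∑ S ∈ connectedSets (gr K N L) \ good K N L hN, hh K N L S ≤
      ((connectedSets (gr K N L) \ good K N L hN).card : ℤ) *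
        (3 * (((connectedSets (gr K N L)).card : ℤ) * (Fintype.card (Vx N L) : ℤ))) := by
  classical
  have h1 : ∀ S ∈ connectedSets (gr K N L) \ good K N L hN, hh K N L S ≤
      3 * (((connectedSets (gr K N L)).card : ℤ) * (Fintype.card (Vx N L) : ℤ)) := by
    intro S hS
    rw [Finset.mem_sdiff] at hS
    obtain ⟨hS, hng⟩ := hS
    have hor : (Sum.inl ⟨0, by omega⟩ : Vx N L) ∉ S ∨
        (Sum.inl ⟨2 * K + 1, by omega⟩ : Vx N L) ∉ S := by
      by_contra hcon
      push Not at hcon
      apply hng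
      unfold good
      rw [Finset.mem_filter]
      exact ⟨hS, hcon⟩
    rcases hor with h | h
    · exact hh_le S hS 3 (by norm_num) (tau_le_three hN hK2 hS _ h)
    · exact hh_le S hS 3 (by norm_num) (tau_le_three hN hK2 hS _ h)
  calc _ ≤ ∑ _S ∈ connectedSets (gr K N L) \ good K N L hN,
      (3 * (((connectedSets (gr K N L)).card : ℤ) * (Fintype.card (Vx N L) : ℤ))) :=
        Finset.sum_le_sum h1
    _ = _ := by rw [Finset.sum_const, nsmul_eq_mul]

theorem conn_of_good (hN : 2 * K + 2 < N) {S : Finset (Vx N L)} (h : S ∈ good K N L hN) :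
    S ∈ connectedSets (gr K N L) := by
  unfold good at h
  exact (Finset.mem_filter.mp h).1

/-- Value of the summand on coded sets with a gap. -/
theorem hh_some (hN : 2 * K + 2 < N) (hK2 : 2 ≤ K) (zb : Bool) (p q : ℕ)
    (h : some (p, q) ∈ J K N zb) (Λ : Finset (Bool × Fin L)) :
    hh K N L (Phi N (some (p, q)) zb Λ) =
      if zb = true ∧ (p, q) ∈ X K N then
        2 * (((connectedSets (gr K N L)).card : ℤ) * ((Phi N (some (p, q)) zb Λ).card : ℤ) -
          ∑ S' ∈ connectedSets (gr K N L), (S'.card : ℤ))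
      else 0 := by
  have hK : K + 1 < N := by omega
  have hS := conn_of_good hN (Phi_good hN h Λ)
  have h' := h
  rw [some_mem_J hN] at h'
  have hpN : p < N := by omega
  have hu : (Sum.inl ⟨p, hpN⟩ : Vx N L) ∉ Phi N (some (p, q)) zb Λ := by
    rw [mem_Phi]
    simp only [PhiMem, inGap]
    omega
  split_ifs with hc
  · obtain ⟨hz, hX⟩ := hc
    rw [mem_X hN (by omega)] at hX
    have ht := tau_three hK hN hK2 hS _ hu
      (by rw [mem_Phi]; simp only [PhiMem, inGap]; omega)
      (by rw [mem_Phi]; simp only [PhiMem, inGap]; omega)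
      (by rw [mem_Phi]; exact hz)
    unfold hh
    rw [ht]
    norm_num
  · have ht := tau_one hK hN hK2 hS _ hu (by
      by_contra hcon
      push Not at hcon
      obtain ⟨a1, a2, a3⟩ := hcon
      apply hc
      rw [mem_Phi] at a1 a2 a3
      refine ⟨a3, ?_⟩
      rw [mem_X hN (by omega)]
      simp only [PhiMem, inGap] at a1 a2
      omega)
    unfold hh
    rw [ht]
    norm_num

theorem X_sub : ∀ x ∈ X K N, x ∈ (Tri 1 K ∪ Tri (K + 1) K) ∪ Tri (2 * K + 2) (N - (2 * K + 2)) := by
  rintro ⟨p, q⟩ h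
  unfold X at h
  rw [Finset.mem_union, Finset.mem_union, mem_Tri, mem_Tri, mem_Tri] at h ⊢
  omega

theorem sum_good_le (hN : 2 * K + 2 < N) (hK2 : 2 ≤ K) :
    ∑ S ∈ good K N L hN, hh K N L S ≤
      2 ^ (2 * L) * (2 * (3 * (N : ℤ) * (((connectedSets (gr K N L)).card : ℤ) *
        (Fintype.card (Vx N L) : ℤ)))) +
      2 * (((connectedSets (gr K N L)).card : ℤ) * (2 ^ (2 * L) *
        (((N : ℤ) + 1 + L) * T0 K N - GX K N)) -
        (∑ S' ∈ connectedSets (gr K N L), (S'.card : ℤ)) * (2 ^ (2 * L) * T0 K N)) := by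
  classical
  set NN : ℤ := ((connectedSets (gr K N L)).card : ℤ) with hNN
  set A : ℤ := ∑ S' ∈ connectedSets (gr K N L), (S'.card : ℤ) with hA
  set v : ℤ := (Fintype.card (Vx N L) : ℤ) with hv
  rw [sum_good hN, Fintype.sum_bool, sum_J_false]
  have hnone : ∀ zb : Bool, ∑ Λ : Finset (Bool × Fin L), hh K N L (Phi N none zb Λ) ≤
      2 ^ (2 * L) * (3 * (N : ℤ) * (NN * v)) := by
    intro zb
    calc _ ≤ ∑ _Λ : Finset (Bool × Fin L), (3 * (N : ℤ) * (NN * v)) * 1 := by
          apply Finset.sum_le_sum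
          intro Λ _
          rw [mul_one]
          have hS := conn_of_good hN (Phi_good hN (none_mem_J zb) Λ)
          apply hh_le _ hS _ (by positivity)
          have := tau_le (K := K) (by omega) hN hK2 (S := Phi N none zb Λ) (by
            intro i
            rw [mem_Phi]
            simp [PhiMem, inGap])
          exact_mod_cast this
      _ = _ := by rw [← Finset.mul_sum, card_leafsets]; ring
  have hz1 : ∑ x ∈ Tri 1 (2 * K), ∑ Λ : Finset (Bool × Fin L), hh K N L (Phi N (some x) false Λ) = 0 := by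
    apply Finset.sum_eq_zero
    rintro ⟨p, q⟩ hx
    apply Finset.sum_eq_zero
    intro Λ _
    rw [mem_Tri] at hx
    rw [hh_some hN hK2 false p q (by rw [some_mem_J hN]; simp; omega)]
    simp
  have hz2 : ∑ x ∈ Tri (2 * K + 2) (N - (2 * K + 2)), ∑ Λ : Finset (Bool × Fin L),
      hh K N L (Phi N (some x) false Λ) = 0 := by
    apply Finset.sum_eq_zero
    rintro ⟨p, q⟩ hx
    apply Finset.sum_eq_zero
    intro Λ _
    rw [mem_Tri] at hx
    rw [hh_some hN hK2 false p q (by rw [some_mem_J hN]; simp; omega)]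
    simp
  have htrue : ∑ g ∈ J K N true, ∑ Λ : Finset (Bool × Fin L), hh K N L (Phi N g true Λ) ≤
      2 ^ (2 * L) * (3 * (N : ℤ) * (NN * v)) +
      2 * (NN * (2 ^ (2 * L) * (((N : ℤ) + 1 + L) * T0 K N - GX K N)) -
        A * (2 ^ (2 * L) * T0 K N)) := by
    have hJ : J K N true = Finset.insertNone
      ((Tri 1 K ∪ Tri (K + 1) K) ∪ Tri (2 * K + 2) (N - (2 * K + 2))) := rfl
    rw [hJ, Finset.sum_insertNone]
    have hsub : ∑ x ∈ (Tri 1 K ∪ Tri (K + 1) K) ∪ Tri (2 * K + 2) (N - (2 * K + 2)),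
        ∑ Λ : Finset (Bool × Fin L), hh K N L (Phi N (some x) true Λ) =
        ∑ x ∈ X K N, ∑ Λ : Finset (Bool × Fin L), hh K N L (Phi N (some x) true Λ) := by
      symm
      apply Finset.sum_subset X_sub
      rintro ⟨p, q⟩ hx hnx
      apply Finset.sum_eq_zero
      intro Λ _
      have hmem : some (p, q) ∈ J K N true := by
        rw [hJ, Finset.some_mem_insertNone]; exact hx
      rw [hh_some hN hK2 true p q hmem]
      simp [hnx]
    rw [hsub]
    have hX : ∑ x ∈ X K N, ∑ Λ : Finset (Bool × Fin L), hh K N L (Phi N (some x) true Λ) =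
        2 * (NN * (2 ^ (2 * L) * (((N : ℤ) + 1 + L) * T0 K N - GX K N)) -
        A * (2 ^ (2 * L) * T0 K N)) := by
      have hterm : ∀ x ∈ X K N, ∑ Λ : Finset (Bool × Fin L), hh K N L (Phi N (some x) true Λ) =
          (2 * NN * 2 ^ (2 * L) * ((N : ℤ) + 1 + L) - 2 * A * 2 ^ (2 * L)) * 1 -
            (2 * NN * 2 ^ (2 * L)) * glen (some x) := by
        rintro ⟨p, q⟩ hx
        have hmem : some (p, q) ∈ J K N true := by
          rw [hJ, Finset.some_mem_insertNone]; exact X_sub _ hx
        have h1 : ∀ Λ ∈ (Finset.univ : Finset (Finset (Bool × Fin L))),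
            hh K N L (Phi N (some (p, q)) true Λ) =
            (2 * NN) * ((Phi N (some (p, q)) true Λ).card : ℤ) - (2 * A) * 1 := by
          intro Λ _
          rw [hh_some hN hK2 true p q hmem, if_pos ⟨rfl, hx⟩]
          ring
        rw [Finset.sum_congr rfl h1, Finset.sum_sub_distrib, ← Finset.mul_sum, ← Finset.mul_sum,
          card_leafsets, sum_Phi_card _ _ (okGap_of_mem hN hmem)]
        simp only [if_true]
        ring
      rw [Finset.sum_congr rfl hterm, Finset.sum_sub_distrib, ← Finset.mul_sum, ← Finset.mul_sum]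
      unfold T0 GX
      ring
    rw [hX]
    have := hnone true
    linarith
  have h0 := hnone false
  rw [hz1, hz2]
  linarith

end

end MP589357
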