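import Pool.Agent.H755.MstCount

namespace MP589357

open SimpleGraph Finset

section
variable {K N L : ℕ}

/-- Admissible gaps, depending on whether the apex is present. -/
def J (K N : ℕ) : Bool → Finset (Option (ℕ × ℕ))
  | false => Finset.insertNone (Tri 1 (2 * K) ∪ Tri (2 * K + 2) (N - (2 * K + 2)))
  | true => Finset.insertNone ((Tri 1 K ∪ Tri (K + 1) K) ∪ Tri (2 * K + 2) (N - (2 * K + 2)))

theorem none_mem_J (zb : Bool) : none ∈ J K N zb := by
  cases zb <;> simp [J]

theorem some_mem_J (hN : 2 * K + 2 < N) (zb : Bool) (p q : ℕ) : some (p, q) ∈ J K N zb ↔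
    (((1 ≤ p ∧ p ≤ q ∧ q ≤ 2 * K) ∨ (2 * K + 2 ≤ p ∧ p ≤ q ∧ q < N)) ∧
      (zb = true → ¬ (p ≤ K ∧ K + 1 ≤ q))) := by
  cases zb
  · simp only [J]
    rw [Finset.some_mem_insertNone, Finset.mem_union, mem_Tri, mem_Tri]
    simp
    omega
  · simp only [J]
    rw [Finset.some_mem_insertNone, Finset.mem_union, Finset.mem_union, mem_Tri, mem_Tri, mem_Tri]
    simp
    omega

theorem okGap_of_mem (hN : 2 * K + 2 < N) {zb : Bool} {g : Option (ℕ × ℕ)} (h : g ∈ J K N zb) :
    okGap N g := by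
  rcases g with _ | ⟨p, q⟩
  · trivial
  · rw [some_mem_J hN] at h
    simp only [okGap]
    omega

open Classical in
/-- The connected sets containing both hubs. -/
noncomputable def good (K N L : ℕ) (hN : 2 * K + 2 < N) : Finset (Finset (Vx N L)) :=
  (connectedSets (gr K N L)).filter fun S =>
    (Sum.inl ⟨0, by omega⟩ : Vx N L) ∈ S ∧ (Sum.inl ⟨2 * K + 1, by omega⟩ : Vx N L) ∈ S

theorem Phi_good (hN : 2 * K + 2 < N) {zb : Bool} {g : Option (ℕ × ℕ)}
    (h : g ∈ J K N zb) (Λ : Finset (Bool × Fin L)) : Phi N g zb Λ ∈ good K N L hN := by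
  classical
  have h0 : (Sum.inl ⟨0, by omega⟩ : Vx N L) ∈ Phi N g zb Λ := by
    rw [mem_Phi]
    rcases g with _ | ⟨p, q⟩
    · simp [PhiMem, inGap]
    · rw [some_mem_J hN] at h
      simp only [PhiMem, inGap]
      omega
  have hb : (Sum.inl ⟨2 * K + 1, by omega⟩ : Vx N L) ∈ Phi N g zb Λ := by
    rw [mem_Phi]
    rcases g with _ | ⟨p, q⟩
    · simp [PhiMem, inGap]
    · rw [some_mem_J hN] at h
      simp only [PhiMem, inGap]
      omega
  unfold good
  rw [Finset.mem_filter]
  refine ⟨?_, h0, hb⟩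
  rcases g with _ | ⟨p, q⟩
  · apply conn_of_interval hN N N (by omega) _ hb
    · intro _
      left
      rw [mem_Phi]
      simp [PhiMem, inGap]
    · intro i
      rw [mem_Phi]
      simp only [PhiMem, inGap]
      have := i.isLt
      simp
  · rw [some_mem_J hN] at h
    apply conn_of_interval hN p q (by omega) _ hb
    · intro hz
      rw [mem_Phi] at hz
      have hz' : zb = true := hz
      have h2 := h.2 hz'
      rw [mem_Phi, mem_Phi]
      simp only [PhiMem, inGap]
      omega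
    · intro i
      rw [mem_Phi]
      simp only [PhiMem, inGap]
      omega

open Classical in
theorem good_is_Phi (hN : 2 * K + 2 < N) {S : Finset (Vx N L)} (hS : S ∈ good K N L hN) :
    ∃ (zb : Bool) (g : Option (ℕ × ℕ)) (Λ : Finset (Bool × Fin L)), g ∈ J K N zb ∧
      Phi N g zb Λ = S := by
  unfold good at hS
  rw [Finset.mem_filter] at hS
  obtain ⟨hS, h0, hb⟩ := hS
  let zb : Bool := decide ((Sum.inr none : Vx N L) ∈ S)
  let Λ : Finset (Bool × Fin L) := Finset.univ.filter (fun x => (Sum.inr (some x) : Vx N L) ∈ S)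
  have hPhi : ∀ g : Option (ℕ × ℕ), (∀ i : Fin N, (Sum.inl i : Vx N L) ∈ S ↔ ¬ inGap g i.val) →
      Phi N g zb Λ = S := by
    intro g hg
    ext v
    rw [mem_Phi]
    rcases v with i | v
    · rw [hg i]; rfl
    · rcases v with _ | x
      · simp only [PhiMem, zb]
        simp
      · simp only [PhiMem, Λ]
        simp
  by_cases hall : ∀ i : Fin N, (Sum.inl i : Vx N L) ∈ S
  · refine ⟨zb, none, Λ, none_mem_J _, hPhi none ?_⟩
    intro i
    simp [hall i, inGap]
  · push Not at hall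
    obtain ⟨i0, hi0⟩ := hall
    let M : Finset (Fin N) := Finset.univ.filter (fun i => (Sum.inl i : Vx N L) ∉ S)
    have hMm : ∀ i, i ∈ M ↔ (Sum.inl i : Vx N L) ∉ S := by
      intro i; simp [M]
    have hMne : M.Nonempty := ⟨i0, (hMm i0).mpr hi0⟩
    obtain ⟨p, hpM, hpmin⟩ := Finset.exists_min_image M (fun i => i.val) hMne
    obtain ⟨q, hqM, hqmax⟩ := Finset.exists_max_image M (fun i => i.val) hMne
    have hpq : p.val ≤ q.val := hpmin q hqM
    rw [hMm] at hpM hqM
    have hgap : ∀ i : Fin N, (Sum.inl i : Vx N L) ∈ S ↔ ¬ inGap (some (p.val, q.val)) i.val := by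
      intro i
      simp only [inGap]
      constructor
      · intro hi hgap
        exact missing_convex hN hS h0 p q i hgap.1 hgap.2 hpM hqM hi
      · intro hi
        by_contra hcon
        apply hi
        have := (hMm i).mpr hcon
        exact ⟨hpmin i this, hqmax i this⟩
    refine ⟨zb, some (p.val, q.val), Λ, ?_, hPhi _ hgap⟩
    rw [some_mem_J hN]
    have e0 := (hgap _).mp h0
    have eb := (hgap _).mp hb
    simp only [inGap] at e0 eb
    have hqN := q.isLt
    refine ⟨by omega, ?_⟩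
    intro hz
    have hz' : (Sum.inr none : Vx N L) ∈ S := by
      simpa [zb] using hz
    have h1 := apex_nbr hN hS h0 hz'
    rw [hgap, hgap] at h1
    simp only [inGap] at h1
    omega

open Classical in
theorem sum_good (hN : 2 * K + 2 < N) (F : Finset (Vx N L) → ℤ) :
    ∑ S ∈ good K N L hN, F S =
      ∑ zb : Bool, ∑ g ∈ J K N zb, ∑ Λ : Finset (Bool × Fin L), F (Phi N g zb Λ) := by
  have h1 : ∑ zb : Bool, ∑ g ∈ J K N zb, ∑ Λ : Finset (Bool × Fin L), F (Phi N g zb Λ) =
      ∑ zb : Bool, ∑ x ∈ J K N zb ×ˢ (Finset.univ : Finset (Finset (Bool × Fin L))),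
        F (Phi N x.1 zb x.2) := by
    apply Finset.sum_congr rfl
    intro zb _
    rw [Finset.sum_product]
  rw [h1, Finset.sum_sigma']
  symm
  refine Finset.sum_bij (fun x _ => Phi N x.2.1 x.1 x.2.2) ?_ ?_ ?_ ?_
  · rintro ⟨zb, g, Λ⟩ hx
    simp only [Finset.mem_sigma, Finset.mem_product, Finset.mem_univ, true_and, and_true] at hx
    exact Phi_good hN hx Λ
  · rintro ⟨zb, g, Λ⟩ hx ⟨zb', g', Λ'⟩ hx' he
    simp only [Finset.mem_sigma, Finset.mem_product, Finset.mem_univ, true_and, and_true] at hx hx'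
    obtain ⟨e1, e2, e3⟩ := Phi_inj (okGap_of_mem hN hx) (okGap_of_mem hN hx') he
    subst e1; subst e2; subst e3
    rfl
  · intro S hS
    obtain ⟨zb, g, Λ, hg, he⟩ := good_is_Phi hN hS
    exact ⟨⟨zb, (g, Λ)⟩, by simpa using hg, he⟩
  · intro x _
    rfl

/-- Number of leaf sets. -/
theorem card_leafsets : ∑ _Λ : Finset (Bool × Fin L), (1 : ℤ) = 2 ^ (2 * L) := by
  simp

theorem sum_leafsets : ∑ Λ : Finset (Bool × Fin L), (Λ.card : ℤ) = L * 2 ^ (2 * L) := by
  have h := sum_card_univ (Bool × Fin L)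
  have h2 : Fintype.card (Bool × Fin L) = 2 * L := by simp
  rw [h2] at h
  push_cast at h
  linarith

/-- Sum over all leaf sets of the size of the coded set. -/
theorem sum_Phi_card (g : Option (ℕ × ℕ)) (zb : Bool) (hg : okGap N g) :
    ∑ Λ : Finset (Bool × Fin L), ((Phi N g zb Λ).card : ℤ) =
      2 ^ (2 * L) * ((N : ℤ) - glen g + (if zb then 1 else 0) + L) := by
  have h1 : ∀ Λ ∈ (Finset.univ : Finset (Finset (Bool × Fin L))), ((Phi N g zb Λ).card : ℤ) =
      ((N : ℤ) - glen g + (if zb then 1 else 0)) * 1 + (Λ.card : ℤ) := by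
    intro Λ _
    rw [card_Phi g zb Λ hg]
    ring
  rw [Finset.sum_congr rfl h1, Finset.sum_add_distrib, ← Finset.mul_sum, card_leafsets,
    sum_leafsets]
  ring

end

end MP589357
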