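import Pool.Agent.H755.MstTau2

namespace MP589357

open SimpleGraph

section
variable {K N L : ℕ}

/-- A set containing both hubs whose cycle part is the complement of an interval is connected. -/
theorem conn_of_interval (hN : 2 * K + 2 < N) {S : Finset (Vx N L)} (p q : ℕ)
    (hp : 1 ≤ p) (hS : ∀ i : Fin N, (Sum.inl i : Vx N L) ∈ S ↔ (i.val < p ∨ q < i.val))
    (hb : (Sum.inl ⟨2 * K + 1, by omega⟩ : Vx N L) ∈ S)
    (hz : (Sum.inr none : Vx N L) ∈ S → ((Sum.inl ⟨K, by omega⟩ : Vx N L) ∈ S ∨
      (Sum.inl ⟨K + 1, by omega⟩ : Vx N L) ∈ S)) : S ∈ connectedSets (gr K N L) := by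
  have hN3 : 3 ≤ N := by omega
  have h0 : (Sum.inl ⟨0, by omega⟩ : Vx N L) ∈ S := (hS _).mpr (Or.inl hp)
  set T := (gr K N L).induce (S : Set (Vx N L)) with hT
  let o : (S : Set (Vx N L)) := ⟨Sum.inl ⟨0, by omega⟩, by simpa using h0⟩
  let Rch : Vx N L → Prop := fun v => ∃ hv : v ∈ (S : Set (Vx N L)), T.Reachable o ⟨v, hv⟩
  have hstep : ∀ u v : Vx N L, Rch u → v ∈ S → (gr K N L).Adj u v → Rch v := by
    rintro u v ⟨hu, hr⟩ hv hadj
    have hv' : v ∈ (S : Set (Vx N L)) := by simpa using hv
    refine ⟨hv', hr.trans ?_⟩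
    have : T.Adj ⟨u, hu⟩ ⟨v, hv'⟩ := by
      rw [hT]
      simpa using hadj
    exact this.reachable
  have hpre : ∀ i : ℕ, ∀ h : i < N, i < p → Rch (Sum.inl ⟨i, h⟩) := by
    intro i
    induction i with
    | zero => intro h _; exact ⟨by simpa using h0, Reachable.refl _⟩
    | succ i ih =>
      intro h hip
      refine hstep _ _ (ih (by omega) (by omega)) ?_ ?_
      · rw [hS]; left; exact hip
      · rw [adj_cc hN3]; left; left; rfl
  have hsuf : ∀ d : ℕ, ∀ h : d < N, q < N - 1 - d → Rch (Sum.inl ⟨N - 1 - d, by omega⟩) := by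
    intro d
    induction d with
    | zero =>
      intro h hq
      refine hstep _ _ (hpre 0 (by omega) hp) ?_ ?_
      · rw [hS]; right; exact hq
      · rw [adj_cc hN3]
        refine Or.inr (Or.inr ⟨?_, rfl⟩)
        show N - 1 - 0 + 1 = N
        omega
    | succ d ih =>
      intro h hq
      refine hstep _ _ (ih (by omega) (by omega)) ?_ ?_
      · rw [hS]; right; exact hq
      · rw [adj_cc hN3]; right; left
        simp only
        omega
  have hcyc : ∀ i : Fin N, (Sum.inl i : Vx N L) ∈ S → Rch (Sum.inl i) := by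
    intro i hi
    rw [hS] at hi
    rcases hi with hi | hi
    · exact hpre i.val i.isLt hi
    · have h1 := hsuf (N - 1 - i.val) (by omega) (by omega)
      have h2 : (⟨N - 1 - (N - 1 - i.val), by omega⟩ : Fin N) = i := by
        apply Fin.ext
        simp only
        omega
      rw [h2] at h1
      exact h1
  have hall : ∀ v : Vx N L, v ∈ S → Rch v := by
    intro v hv
    rcases v with i | v
    · exact hcyc i hv
    · rcases v with _ | ⟨h, l⟩
      · rcases hz hv with h1 | h1
        · refine hstep _ _ (hcyc _ h1) hv ?_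
          rw [adj_cz]; left; rfl
        · refine hstep _ _ (hcyc _ h1) hv ?_
          rw [adj_cz]; right; rfl
      · rcases h with _ | _
        · refine hstep _ _ (hcyc _ h0) hv ?_
          rw [adj_cl]; simp
        · refine hstep _ _ (hcyc _ hb) hv ?_
          rw [adj_cl]; simp
  rw [mem_connectedSets]
  have hne : Nonempty (S : Set (Vx N L)) := ⟨o⟩
  refine ⟨?_⟩
  intro a b
  obtain ⟨_, ha⟩ := hall a.1 (by simpa using a.2)
  obtain ⟨_, hb'⟩ := hall b.1 (by simpa using b.2)
  exact ha.symm.trans hb'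

theorem conn_cut {S : Finset (Vx N L)} (hS : S ∈ connectedSets (gr K N L)) (P : Vx N L → Prop)
    (hP : ∀ a b, a ∈ S → b ∈ S → (gr K N L).Adj a b → P a → P b) {x y : Vx N L}
    (hx : x ∈ S) (hy : y ∈ S) (hpx : P x) (hpy : ¬ P y) : False := by
  rw [mem_connectedSets] at hS
  refine connected_no_cut hS.preconnected (fun a => P a.1) ?_ (x := ⟨x, by simpa using hx⟩)
    (y := ⟨y, by simpa using hy⟩) hpx hpy
  intro a b hab
  exact hP a.1 b.1 (by simpa using a.2) (by simpa using b.2) (by simpa using hab)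

/-- Convexity of the missing part of the cycle. -/
theorem missing_convex (hN : 2 * K + 2 < N) {S : Finset (Vx N L)}
    (hS : S ∈ connectedSets (gr K N L)) (h0 : (Sum.inl ⟨0, by omega⟩ : Vx N L) ∈ S)
    (p q r : Fin N) (hpr : p.val ≤ r.val) (hrq : r.val ≤ q.val)
    (hp : (Sum.inl p : Vx N L) ∉ S) (hq : (Sum.inl q : Vx N L) ∉ S) :
    (Sum.inl r : Vx N L) ∉ S := by
  intro hr
  have hN3 : 3 ≤ N := by omega
  have hp0 : p.val ≠ 0 := by
    intro h
    apply hp
    have : p = ⟨0, by omega⟩ := Fin.ext h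
    rw [this]; exact h0
  let P : Vx N L → Prop := fun v => match v with
    | Sum.inl i => p.val < i.val ∧ i.val < q.val
    | Sum.inr none => p.val ≤ K ∧ K + 1 ≤ q.val
    | Sum.inr (some (h, _)) => h = true ∧ p.val < 2 * K + 1 ∧ 2 * K + 1 < q.val
  have hneq : ∀ i : Fin N, (Sum.inl i : Vx N L) ∈ S → i.val ≠ p.val ∧ i.val ≠ q.val := by
    intro i hi
    refine ⟨fun h => hp ?_, fun h => hq ?_⟩
    · rw [← Fin.ext h]; exact hi
    · rw [← Fin.ext h]; exact hi
  have hqN := q.isLt
  refine conn_cut hS P ?_ hr h0 ?_ ?_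
  · intro a b ha hb hab hPa
    rcases a with a | a <;> rcases b with b | b
    · rw [adj_cc hN3] at hab
      have h1 := hneq a ha
      have h2 := hneq b hb
      have ha' := a.isLt
      have hb' := b.isLt
      simp only [P] at hPa ⊢
      omega
    · have h1 := hneq a ha
      rcases b with _ | ⟨h, l⟩
      · rw [adj_cz] at hab
        simp only [P] at hPa ⊢
        omega
      · rw [adj_cl] at hab
        simp only [P] at hPa ⊢
        rcases h with _ | _
        · simp at hab; omega
        · simp at hab; refine ⟨rfl, ?_⟩; omega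
    · have h1 := hneq b hb
      rcases a with _ | ⟨h, l⟩
      · rw [adj_zc] at hab
        simp only [P] at hPa ⊢
        omega
      · rw [adj_lc] at hab
        simp only [P] at hPa ⊢
        obtain ⟨rfl, h3, h4⟩ := hPa
        simp at hab; omega
    · exact absurd hab adj_rr
  · simp only [P]
    have := hneq r hr
    omega
  · simp only [P]
    omega

/-- The apex needs a neighbour. -/
theorem apex_nbr (hN : 2 * K + 2 < N) {S : Finset (Vx N L)}
    (hS : S ∈ connectedSets (gr K N L)) (h0 : (Sum.inl ⟨0, by omega⟩ : Vx N L) ∈ S)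
    (hz : (Sum.inr none : Vx N L) ∈ S) :
    (Sum.inl ⟨K, by omega⟩ : Vx N L) ∈ S ∨ (Sum.inl ⟨K + 1, by omega⟩ : Vx N L) ∈ S := by
  by_contra hcon
  push Not at hcon
  obtain ⟨h1, h2⟩ := hcon
  refine conn_cut hS (fun v => v = Sum.inr none) ?_ hz h0 rfl (by simp)
  rintro a b ha hb hab rfl
  rcases b with b | b
  · exfalso
    rw [adj_zc] at hab
    rcases hab with hab | hab
    · apply h1
      have : b = ⟨K, by omega⟩ := Fin.ext hab
      rw [← this]; exact hb
    · apply h2
      have : b = ⟨K + 1, by omega⟩ := Fin.ext hab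
      rw [← this]; exact hb
  · exact absurd hab adj_rr

/-- If a hub is missing, a connected set is a single leaf or has no leaf at that hub. -/
theorem leaf_alone {S : Finset (Vx N L)} (hS : S ∈ connectedSets (gr K N L)) (h : Bool) (l : Fin L)
    (hub : Fin N) (hhub : hub.val = if h then 2 * K + 1 else 0)
    (hm : (Sum.inl hub : Vx N L) ∉ S) (hl : (Sum.inr (some (h, l)) : Vx N L) ∈ S) :
    S = {Sum.inr (some (h, l))} := by
  classical
  by_contra hcon
  have : ∃ y ∈ S, y ≠ Sum.inr (some (h, l)) := by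
    by_contra hc2
    push Not at hc2
    apply hcon
    ext y
    rw [Finset.mem_singleton]
    exact ⟨fun hy => hc2 y hy, fun hy => hy ▸ hl⟩
  obtain ⟨y, hy, hyne⟩ := this
  refine conn_cut hS (fun v => v = Sum.inr (some (h, l))) ?_ hl hy rfl hyne
  rintro a b ha hb hab rfl
  rcases b with b | b
  · exfalso
    rw [adj_lc] at hab
    apply hm
    have : hub = b := Fin.ext (hhub.trans hab.symm)
    rw [this]; exact hb
  · exact absurd hab adj_rr

end

end MP589357
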