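import Pool.Agent.H755.MstConn

namespace MP589357

open SimpleGraph Finset

/-- Pairs `(p, q)` with `a ≤ p ≤ q < a + n`. -/
def Tri (a n : ℕ) : Finset (ℕ × ℕ) :=
  (Finset.Ico a (a + n) ×ˢ Finset.Ico a (a + n)).filter fun x => x.1 ≤ x.2

theorem mem_Tri {a n p q : ℕ} : (p, q) ∈ Tri a n ↔ a ≤ p ∧ p ≤ q ∧ q < a + n := by
  unfold Tri
  rw [Finset.mem_filter, Finset.mem_product, Finset.mem_Ico, Finset.mem_Ico]
  simp only
  omega

theorem sum_Tri_succ (a n : ℕ) (f : ℕ × ℕ → ℤ) :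
    ∑ x ∈ Tri a (n + 1), f x = ∑ x ∈ Tri a n, f x + ∑ i ∈ Finset.range (n + 1), f (a + i, a + n) := by
  have h1 : Tri a (n + 1) = Tri a n ∪ (Finset.range (n + 1)).image (fun i => (a + i, a + n)) := by
    ext ⟨p, q⟩
    rw [Finset.mem_union, mem_Tri, mem_Tri, Finset.mem_image]
    constructor
    · rintro ⟨h1, h2, h3⟩
      by_cases hq : q = a + n
      · right
        refine ⟨p - a, ?_, ?_⟩
        · rw [Finset.mem_range]; omega
        · rw [hq]; congr 1; omega
      · left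
        omega
    · rintro (⟨h1, h2, h3⟩ | ⟨i, hi, he⟩)
      · omega
      · rw [Finset.mem_range] at hi
        rw [Prod.mk.injEq] at he
        omega
  have h2 : Disjoint (Tri a n) ((Finset.range (n + 1)).image (fun i => (a + i, a + n))) := by
    rw [Finset.disjoint_left]
    rintro ⟨p, q⟩ h3 h4
    rw [mem_Tri] at h3
    rw [Finset.mem_image] at h4
    obtain ⟨i, hi, he⟩ := h4
    rw [Prod.mk.injEq] at he
    omega
  rw [h1, Finset.sum_union h2, Finset.sum_image]
  intro i _ j _ hij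
  rw [Prod.mk.injEq] at hij
  omega

theorem card_Tri (a n : ℕ) : 2 * ((Tri a n).card : ℤ) = n * (n + 1) := by
  have : ∀ n : ℕ, 2 * ∑ x ∈ Tri a n, (1 : ℤ) = n * (n + 1) := by
    intro n
    induction n with
    | zero =>
      have : Tri a 0 = ∅ := by
        ext ⟨p, q⟩
        rw [mem_Tri]
        simp
        omega
      rw [this]; simp
    | succ n ih =>
      rw [sum_Tri_succ, mul_add, ih]
      simp
      ring
  have h := this n
  rw [Finset.sum_const, nsmul_eq_mul, mul_one] at h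
  exact h

theorem sum_len_Tri (a n : ℕ) :
    6 * ∑ x ∈ Tri a n, ((x.2 : ℤ) - x.1 + 1) = n * (n + 1) * (n + 2) := by
  induction n with
  | zero =>
    have : Tri a 0 = ∅ := by
      ext ⟨p, q⟩
      rw [mem_Tri]
      simp
      omega
    rw [this]; simp
  | succ n ih =>
    rw [sum_Tri_succ, mul_add, ih]
    have h2 : ∀ m : ℕ, 2 * ∑ i ∈ Finset.range (m + 1), ((n : ℤ) - i + 1) =
        (m + 1) * (2 * n + 2 - m) := by
      intro m
      induction m with
      | zero => simp; ring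
      | succ m ihm =>
        rw [Finset.sum_range_succ, mul_add, ihm]
        push_cast
        ring
    have h3 : ∑ i ∈ Finset.range (n + 1), ((((a + i, a + n) : ℕ × ℕ).2 : ℤ) -
        (((a + i, a + n) : ℕ × ℕ).1 : ℤ) + 1) = ∑ i ∈ Finset.range (n + 1), ((n : ℤ) - i + 1) := by
      apply Finset.sum_congr rfl
      intro i _
      push_cast
      ring
    rw [h3]
    have h4 := h2 n
    push_cast
    linear_combination 3 * h4

/-- Membership in a gap. -/
def inGap : Option (ℕ × ℕ) → ℕ → Prop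
  | none, _ => False
  | some (p, q), i => p ≤ i ∧ i ≤ q

/-- Gap length. -/
def glen : Option (ℕ × ℕ) → ℤ
  | none => 0
  | some (p, q) => (q : ℤ) - p + 1

section
variable {K N L : ℕ}

/-- Membership predicate of the coded vertex set. -/
def PhiMem (g : Option (ℕ × ℕ)) (zb : Bool) (Λ : Finset (Bool × Fin L)) : Vx N L → Prop
  | Sum.inl i => ¬ inGap g i.val
  | Sum.inr none => zb = true
  | Sum.inr (some x) => x ∈ Λ

open Classical in
/-- The vertex set with gap `g`, apex bit `zb` and leaf set `Λ`. -/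
noncomputable def Phi (N : ℕ) (g : Option (ℕ × ℕ)) (zb : Bool) (Λ : Finset (Bool × Fin L)) :
    Finset (Vx N L) := Finset.univ.filter (PhiMem g zb Λ)

theorem mem_Phi {g : Option (ℕ × ℕ)} {zb : Bool} {Λ : Finset (Bool × Fin L)} {v : Vx N L} :
    v ∈ Phi N g zb Λ ↔ PhiMem g zb Λ v := by
  classical
  simp [Phi]

theorem count_gap (p q : ℕ) (hpq : p ≤ q) (hq : q < N) :
    ∑ i : Fin N, (if ¬ (p ≤ i.val ∧ i.val ≤ q) then (1 : ℤ) else 0) = (N : ℤ) - ((q : ℤ) - p + 1) := by
  have h1 : ∑ i : Fin N, (if ¬ (p ≤ i.val ∧ i.val ≤ q) then (1 : ℤ) else 0) =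
      ∑ i ∈ Finset.range N, (if ¬ (p ≤ i ∧ i ≤ q) then (1 : ℤ) else 0) :=
    Fin.sum_univ_eq_sum_range (fun i => if ¬ (p ≤ i ∧ i ≤ q) then (1 : ℤ) else 0) N
  rw [h1]
  have h2 : ∀ i ∈ Finset.range N, (if ¬ (p ≤ i ∧ i ≤ q) then (1 : ℤ) else 0) =
      1 - (if (p ≤ i ∧ i ≤ q) then (1 : ℤ) else 0) := by
    intro i _
    split_ifs <;> simp
  rw [Finset.sum_congr rfl h2, Finset.sum_sub_distrib, ← Finset.sum_filter]
  have h3 : (Finset.range N).filter (fun i => p ≤ i ∧ i ≤ q) = Finset.Icc p q := by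
    ext i
    rw [Finset.mem_filter, Finset.mem_range, Finset.mem_Icc]
    omega
  rw [h3]
  simp only [Finset.sum_const, Finset.card_range, nsmul_eq_mul, mul_one, Nat.card_Icc]
  rw [Nat.cast_sub (by omega)]
  push_cast
  ring

/-- A gap inside the cycle. -/
def okGap (N : ℕ) : Option (ℕ × ℕ) → Prop
  | none => True
  | some (p, q) => p ≤ q ∧ q < N

theorem card_Phi (g : Option (ℕ × ℕ)) (zb : Bool) (Λ : Finset (Bool × Fin L)) (hg : okGap N g) :
    ((Phi N g zb Λ).card : ℤ) = (N : ℤ) - glen g + (if zb then 1 else 0) + (Λ.card : ℤ) := by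
  classical
  unfold Phi
  rw [Finset.card_filter]
  push_cast
  rw [Fintype.sum_sum_type, Fintype.sum_option]
  have h1 : ∑ i : Fin N, (if PhiMem g zb Λ (Sum.inl i : Vx N L) then (1 : ℤ) else 0) =
      (N : ℤ) - glen g := by
    rcases g with _ | ⟨p, q⟩
    · simp [PhiMem, inGap, glen]
    · obtain ⟨h2, h3⟩ := hg
      have h4 := count_gap p q h2 h3
      show _ = (N : ℤ) - ((q : ℤ) - p + 1)
      rw [← h4]
      apply Finset.sum_congr rfl
      intro i _
      exact if_congr Iff.rfl rfl rfl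
  have h2 : (if PhiMem g zb Λ (Sum.inr none : Vx N L) then (1 : ℤ) else 0) =
      (if zb then 1 else 0) := if_congr Iff.rfl rfl rfl
  have h3 : ∑ x : Bool × Fin L, (if PhiMem g zb Λ (Sum.inr (some x) : Vx N L) then (1 : ℤ) else 0) =
      (Λ.card : ℤ) := by
    have h4 : ∀ x ∈ (Finset.univ : Finset (Bool × Fin L)),
        (if PhiMem g zb Λ (Sum.inr (some x) : Vx N L) then (1 : ℤ) else 0) =
        (if x ∈ Λ then (1 : ℤ) else 0) := fun x _ => if_congr Iff.rfl rfl rfl
    rw [Finset.sum_congr rfl h4, ← Finset.sum_filter, Finset.filter_mem_eq_inter,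
      Finset.univ_inter, Finset.sum_const, nsmul_eq_mul, mul_one]
  rw [h1, h2, h3]
  ring

theorem Phi_inj {g g' : Option (ℕ × ℕ)} {zb zb' : Bool} {Λ Λ' : Finset (Bool × Fin L)}
    (hg : okGap N g) (hg' : okGap N g') (h : Phi N g zb Λ = Phi N g' zb' Λ') :
    g = g' ∧ zb = zb' ∧ Λ = Λ' := by
  have hm : ∀ v : Vx N L, PhiMem g zb Λ v ↔ PhiMem g' zb' Λ' v := by
    intro v
    rw [← mem_Phi, ← mem_Phi, h]
  refine ⟨?_, ?_, ?_⟩
  · have h1 : ∀ i, i < N → (inGap g i ↔ inGap g' i) := by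
      intro i hi
      have := hm (Sum.inl ⟨i, hi⟩)
      simp only [PhiMem] at this
      exact not_iff_not.mp this
    rcases g with _ | ⟨p, q⟩ <;> rcases g' with _ | ⟨p', q'⟩
    · rfl
    · exfalso
      obtain ⟨h2, h3⟩ := hg'
      have := (h1 q' h3).mpr ⟨h2, le_rfl⟩
      exact this
    · exfalso
      obtain ⟨h2, h3⟩ := hg
      have := (h1 q h3).mp ⟨h2, le_rfl⟩
      exact this
    · obtain ⟨h2, h3⟩ := hg
      obtain ⟨h2', h3'⟩ := hg'
      have a1 := (h1 p (by omega)).mp ⟨le_rfl, h2⟩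
      have a2 := (h1 q h3).mp ⟨h2, le_rfl⟩
      have a3 := (h1 p' (by omega)).mpr ⟨le_rfl, h2'⟩
      have a4 := (h1 q' h3').mpr ⟨h2', le_rfl⟩
      simp only [inGap] at a1 a2 a3 a4
      have e1 : p = p' := by omega
      have e2 : q = q' := by omega
      rw [e1, e2]
  · have := hm (Sum.inr none)
    simp only [PhiMem] at this
    cases zb <;> cases zb' <;> simp_all
  · ext x
    exact hm (Sum.inr (some x))

/-- Sum of the sizes of all leaf sets. -/
theorem sum_card_univ (α : Type*) [Fintype α] [DecidableEq α] :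
    2 * ∑ Λ : Finset α, (Λ.card : ℤ) = (Fintype.card α : ℤ) * 2 ^ (Fintype.card α) := by
  have h1 : ∑ Λ : Finset α, (Λ.card : ℤ) = ∑ Λ : Finset α, ((Λᶜ).card : ℤ) := by
    apply Finset.sum_nbij' (fun Λ => Λᶜ) (fun Λ => Λᶜ) <;> simp
  have h2 : ∑ Λ : Finset α, ((Λᶜ).card : ℤ) =
      ∑ Λ : Finset α, ((Fintype.card α : ℤ) - (Λ.card : ℤ)) := by
    apply Finset.sum_congr rfl
    intro Λ _
    rw [Finset.card_compl, Nat.cast_sub (Finset.card_le_univ Λ)]
  have h3 : ∑ Λ : Finset α, ((Fintype.card α : ℤ) - (Λ.card : ℤ)) =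
      (Fintype.card α : ℤ) * 2 ^ (Fintype.card α) - ∑ Λ : Finset α, (Λ.card : ℤ) := by
    rw [Finset.sum_sub_distrib]
    simp
    ring
  linarith

end

end MP589357
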