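import Pool.Agent.H755.MstBasic

namespace MP589357

open SimpleGraph

variable {V : Type*}

open Classical in
/-- The (nonempty) vertex sets `S` for which the induced subgraph `G[S]` is connected. -/
noncomputable def connectedSets [Fintype V] (G : SimpleGraph V) : Finset (Finset V) :=
  Finset.univ.filter fun S => (G.induce (S : Set V)).Connected

open Classical in
/-- The subtrees of `G`: all subgraphs which are trees. -/
noncomputable def subtrees [Fintype V] (G : SimpleGraph V) : Finset G.Subgraph :=
  Finset.univ.filter fun H => H.coe.IsTree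

/-- The average size of a connected vertex set. -/
noncomputable def av [Fintype V] (G : SimpleGraph V) : ℚ :=
  (∑ S ∈ connectedSets G, (S.card : ℚ)) / ((connectedSets G).card : ℚ)

/-- The mean subtree order. -/
noncomputable def mu [Fintype V] (G : SimpleGraph V) : ℚ :=
  (∑ H ∈ subtrees G, (H.verts.ncard : ℚ)) / ((subtrees G).card : ℚ)

open Classical in
/-- The subtrees with vertex set `S`. -/
noncomputable def treesOn [Fintype V] (G : SimpleGraph V) (S : Finset V) : Finset G.Subgraph :=
  (subtrees G).filter fun H => H.verts = (S : Set V)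

theorem mem_connectedSets [Fintype V] {G : SimpleGraph V} {S : Finset V} :
    S ∈ connectedSets G ↔ (G.induce (S : Set V)).Connected := by
  classical
  simp [connectedSets]

theorem mem_subtrees [Fintype V] {G : SimpleGraph V} {H : G.Subgraph} :
    H ∈ subtrees G ↔ H.coe.IsTree := by
  classical
  simp [subtrees]

theorem mem_treesOn [Fintype V] {G : SimpleGraph V} {S : Finset V} {H : G.Subgraph} :
    H ∈ treesOn G S ↔ H.coe.IsTree ∧ H.verts = (S : Set V) := by
  classical
  simp [treesOn, mem_subtrees]

theorem verts_connected {G : SimpleGraph V} (H : G.Subgraph) (hc : H.coe.Connected) :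
    (G.induce H.verts).Connected := by
  let f : H.coe →g G.induce H.verts :=
    { toFun := fun x => x
      map_rel' := by
        intro a b hab
        have : H.Adj a.1 b.1 := by simpa using hab
        simpa using this.adj_sub }
  exact hc.map f (fun x => ⟨x, rfl⟩)

theorem sum_subtrees [Fintype V] (G : SimpleGraph V) (f : Finset V → ℤ) :
    ∑ S ∈ connectedSets G, ((treesOn G S).card : ℤ) * f S =
      ∑ H ∈ subtrees G, f (Set.toFinite H.verts).toFinset := by
  classical
  have hmap : ∀ H ∈ subtrees G, (Set.toFinite H.verts).toFinset ∈ connectedSets G := by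
    intro H hH
    rw [mem_connectedSets]
    rw [mem_subtrees] at hH
    have := verts_connected H hH.connected
    rwa [Set.Finite.coe_toFinset]
  rw [← Finset.sum_fiberwise_of_maps_to hmap]
  apply Finset.sum_congr rfl
  intro S _
  have : ∀ H ∈ (subtrees G).filter (fun H => (Set.toFinite H.verts).toFinset = S),
      f (Set.toFinite H.verts).toFinset = f S := by
    intro H hH
    rw [(Finset.mem_filter.mp hH).2]
  rw [Finset.sum_congr rfl this, Finset.sum_const, nsmul_eq_mul]
  congr 2
  unfold treesOn
  congr 1
  apply Finset.filter_congr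
  intro H _
  constructor
  · intro h
    rw [← Finset.coe_inj, Set.Finite.coe_toFinset, h]
  · intro h
    rw [← h, Set.Finite.coe_toFinset]

/-- Reduction of `mu G < av G` to an integer inequality. -/
theorem mu_lt_av [Fintype V] (G : SimpleGraph V) (hne : (connectedSets G).Nonempty)
    (hpos : ∀ S ∈ connectedSets G, 0 < (treesOn G S).card)
    (h : ∑ S ∈ connectedSets G, (((treesOn G S).card : ℤ) - 1) *
      (((connectedSets G).card : ℤ) * (S.card : ℤ) - ∑ S' ∈ connectedSets G, (S'.card : ℤ)) < 0) :
    mu G < av G := by
  set N : ℤ := ((connectedSets G).card : ℤ) with hN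
  set A : ℤ := ∑ S' ∈ connectedSets G, (S'.card : ℤ) with hA
  have e0 : ∑ S ∈ connectedSets G, ((treesOn G S).card : ℤ) * (1 : ℤ) = ((subtrees G).card : ℤ) := by
    rw [sum_subtrees G (fun _ => 1)]
    simp
  have e1 : ∑ S ∈ connectedSets G, ((treesOn G S).card : ℤ) * (S.card : ℤ) =
      ∑ H ∈ subtrees G, (H.verts.ncard : ℤ) := by
    rw [sum_subtrees G (fun S => (S.card : ℤ))]
    apply Finset.sum_congr rfl
    intro H _
    rw [Set.ncard_eq_toFinset_card H.verts (Set.toFinite _)]
  have e2 : ∑ S ∈ connectedSets G, (N * (S.card : ℤ) - A) = 0 := by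
    rw [Finset.sum_sub_distrib, ← Finset.mul_sum, Finset.sum_const, nsmul_eq_mul, ← hA, ← hN]
    ring
  have key : N * (∑ H ∈ subtrees G, (H.verts.ncard : ℤ)) - A * ((subtrees G).card : ℤ) < 0 := by
    rw [← e0, ← e1, Finset.mul_sum, Finset.mul_sum, ← Finset.sum_sub_distrib]
    have : ∑ S ∈ connectedSets G, (N * (((treesOn G S).card : ℤ) * (S.card : ℤ)) -
        A * (((treesOn G S).card : ℤ) * 1)) =
        ∑ S ∈ connectedSets G, ((((treesOn G S).card : ℤ) - 1) * (N * (S.card : ℤ) - A)) +
        ∑ S ∈ connectedSets G, (N * (S.card : ℤ) - A) := by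
      rw [← Finset.sum_add_distrib]
      apply Finset.sum_congr rfl
      intro S _
      ring
    rw [this, e2, add_zero]
    exact h
  have hNpos : 0 < (connectedSets G).card := hne.card_pos
  have hTpos : 0 < ((subtrees G).card : ℤ) := by
    rw [← e0]
    apply Finset.sum_pos
    · intro S hS
      have := hpos S hS
      have h2 : (0 : ℤ) < ((treesOn G S).card : ℤ) := by exact_mod_cast this
      linarith
    · exact hne
  unfold mu av
  rw [div_lt_div_iff₀ (by exact_mod_cast hTpos) (by exact_mod_cast hNpos)]
  have key2 : (∑ H ∈ subtrees G, (H.verts.ncard : ℤ)) * N < A * ((subtrees G).card : ℤ) := by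
    linarith
  have key3 := (Int.cast_lt (R := ℚ)).mpr key2
  rw [hN, hA] at key3
  push_cast at key3
  exact key3

end MP589357
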