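import Pool.Agent.H755.MstDefs

namespace MP589357

open SimpleGraph

/-- Vertices: a cycle `inl i` (`i < N`), an apex `inr none`, and `L` leaves at each of two hubs. -/
abbrev Vx (N L : ℕ) : Type := Fin N ⊕ Option (Bool × Fin L)

/-- One direction of the edges. -/
def rel (K N L : ℕ) : Vx N L → Vx N L → Prop
  | Sum.inl i, Sum.inl j => i.val + 1 = j.val ∨ (i.val + 1 = N ∧ j.val = 0)
  | Sum.inl i, Sum.inr none => i.val = K ∨ i.val = K + 1
  | Sum.inl i, Sum.inr (some (h, _)) => i.val = if h then 2 * K + 1 else 0
  | _, _ => False

/-- The graph: a cycle `0, 1, …, N-1`, an apex adjacent to `K` and `K+1`, `L` leaves at `0` and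
`L` leaves at `2K+1`. -/
def gr (K N L : ℕ) : SimpleGraph (Vx N L) := SimpleGraph.fromRel (rel K N L)

section
variable {K N L : ℕ}

theorem adj_iff {u v : Vx N L} : (gr K N L).Adj u v ↔ u ≠ v ∧ (rel K N L u v ∨ rel K N L v u) := by
  unfold gr; exact SimpleGraph.fromRel_adj _ _ _

theorem adj_cc (hN : 3 ≤ N) {i j : Fin N} : (gr K N L).Adj (Sum.inl i) (Sum.inl j) ↔
    (i.val + 1 = j.val ∨ (i.val + 1 = N ∧ j.val = 0)) ∨
    (j.val + 1 = i.val ∨ (j.val + 1 = N ∧ i.val = 0)) := by
  rw [adj_iff]
  simp only [rel]
  constructor
  · exact fun h => h.2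
  · intro h
    refine ⟨?_, h⟩
    intro he
    have : i.val = j.val := by
      have := Sum.inl.inj he
      rw [this]
    omega

theorem adj_cz {i : Fin N} : (gr K N L).Adj (Sum.inl i) (Sum.inr none) ↔
    (i.val = K ∨ i.val = K + 1) := by
  rw [adj_iff]
  simp [rel]

theorem adj_zc {i : Fin N} : (gr K N L).Adj (Sum.inr none) (Sum.inl i) ↔
    (i.val = K ∨ i.val = K + 1) := by
  rw [SimpleGraph.adj_comm, adj_cz]

theorem adj_cl {i : Fin N} {h : Bool} {l : Fin L} :
    (gr K N L).Adj (Sum.inl i) (Sum.inr (some (h, l))) ↔
    (i.val = if h then 2 * K + 1 else 0) := by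
  rw [adj_iff]
  simp [rel]

theorem adj_lc {i : Fin N} {h : Bool} {l : Fin L} :
    (gr K N L).Adj (Sum.inr (some (h, l))) (Sum.inl i) ↔
    (i.val = if h then 2 * K + 1 else 0) := by
  rw [SimpleGraph.adj_comm, adj_cl]

theorem adj_rr {a b : Option (Bool × Fin L)} : ¬ (gr K N L).Adj (Sum.inr a) (Sum.inr b) := by
  rw [adj_iff]
  rintro ⟨_, h | h⟩ <;> simp [rel] at h

/-- Successor along the cycle. -/
def nxt (i : Fin N) : Fin N := ⟨if i.val + 1 < N then i.val + 1 else 0, by
  have := i.isLt
  split_ifs <;> omega⟩

theorem nxt_val (i : Fin N) : (nxt i).val = if i.val + 1 < N then i.val + 1 else 0 := rfl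

/-- The cycle edge starting at `j`. -/
def ce (L : ℕ) (j : Fin N) : Sym2 (Vx N L) := s(Sum.inl j, Sum.inl (nxt j))

/-- The three edges of the triangle. -/
def te (hK : K + 1 < N) (L : ℕ) (t : Fin 3) : Sym2 (Vx N L) :=
  if t = 0 then s(Sum.inl ⟨K, by omega⟩, Sum.inl ⟨K + 1, hK⟩)
  else if t = 1 then s(Sum.inl ⟨K, by omega⟩, Sum.inr none)
  else s(Sum.inl ⟨K + 1, hK⟩, Sum.inr none)

/-- Deleting a cycle edge and a different triangle edge leaves a forest. -/
theorem acyc (hK : K + 1 < N) (hN : 2 * K + 2 < N) (hK2 : 2 ≤ K) (j : Fin N) (t : Fin 3)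
    (hjt : j.val = K → t ≠ 0) :
    ((gr K N L).deleteEdges {ce L j, te hK L t}).IsAcyclic := by
  let pos : ℕ → ℕ := fun i => if j.val < i then i - j.val - 1 else i + N - j.val - 1
  let r : Vx N L → ℕ := fun v => match v with
    | Sum.inl i => 2 * pos i.val + 1
    | Sum.inr none => if t = 0 then 2 * pos K + 2 else 4 * N
    | Sum.inr (some _) => 4 * N
  have hj := j.isLt
  have hN3 : 3 ≤ N := by omega
  have hcc : ∀ a b : Fin N, ((gr K N L).deleteEdges {ce L j, te hK L t}).Adj (Sum.inl a) (Sum.inl b) →
      (pos a.val + 1 = pos b.val ∨ pos b.val + 1 = pos a.val) ∧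
      (t = 0 → ¬ (a.val = K ∧ b.val = K + 1) ∧ ¬ (b.val = K ∧ a.val = K + 1)) := by
    intro a b hab
    rw [deleteEdges_adj, adj_cc hN3] at hab
    obtain ⟨h1, h2⟩ := hab
    have ha := a.isLt
    have hb := b.isLt
    have h3 : ¬ (a = j ∧ b = nxt j) := by
      rintro ⟨rfl, rfl⟩
      apply h2
      left
      rfl
    have h4 : ¬ (b = j ∧ a = nxt j) := by
      rintro ⟨rfl, rfl⟩
      apply h2
      left
      exact Sym2.eq_swap
    have h3' : ¬ (a.val = j.val ∧ b.val = (nxt j).val) := by
      rintro ⟨e1, e2⟩
      exact h3 ⟨Fin.ext e1, Fin.ext e2⟩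
    have h4' : ¬ (b.val = j.val ∧ a.val = (nxt j).val) := by
      rintro ⟨e1, e2⟩
      exact h4 ⟨Fin.ext e1, Fin.ext e2⟩
    rw [nxt_val] at h3' h4'
    refine ⟨?_, ?_⟩
    · simp only [pos]
      split_ifs at h3' h4' ⊢ <;> omega
    · intro ht
      refine ⟨?_, ?_⟩
      · rintro ⟨e1, e2⟩
        apply h2
        right
        have ea : a = ⟨K, by omega⟩ := Fin.ext e1
        have eb : b = ⟨K + 1, hK⟩ := Fin.ext e2
        have : te hK L t = s(Sum.inl a, Sum.inl b) := by
          simp only [ht, te, if_true, ea, eb]
        exact this.symm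
      · rintro ⟨e1, e2⟩
        apply h2
        right
        have ea : b = ⟨K, by omega⟩ := Fin.ext e1
        have eb : a = ⟨K + 1, hK⟩ := Fin.ext e2
        have : te hK L t = s(Sum.inl a, Sum.inl b) := by
          simp only [ht, te, if_true, ea, eb]
          exact Sym2.eq_swap
        exact this.symm
  have hcz : ∀ a : Fin N, ((gr K N L).deleteEdges {ce L j, te hK L t}).Adj (Sum.inl a) (Sum.inr none) →
      (a.val = K ∧ t ≠ 1) ∨ (a.val = K + 1 ∧ t ≠ 2) := by
    intro a ha
    rw [deleteEdges_adj, adj_cz] at ha
    obtain ⟨h1, h2⟩ := ha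
    rcases h1 with h1 | h1
    · left
      refine ⟨h1, ?_⟩
      rintro rfl
      apply h2
      right
      have ea : a = ⟨K, by omega⟩ := Fin.ext h1
      rw [ea]
      simp [te]
    · right
      refine ⟨h1, ?_⟩
      rintro rfl
      apply h2
      right
      have ea : a = ⟨K + 1, hK⟩ := Fin.ext h1
      rw [ea]
      simp [te]
  have hcl : ∀ (a : Fin N) (h : Bool) (l : Fin L),
      ((gr K N L).deleteEdges {ce L j, te hK L t}).Adj (Sum.inl a) (Sum.inr (some (h, l))) →
      (a.val = if h then 2 * K + 1 else 0) := by
    intro a h l hab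
    rw [deleteEdges_adj, adj_cl] at hab
    exact hab.1
  have hrr : ∀ a b : Option (Bool × Fin L),
      ¬ ((gr K N L).deleteEdges {ce L j, te hK L t}).Adj (Sum.inr a) (Sum.inr b) := by
    intro a b hab
    rw [deleteEdges_adj] at hab
    exact adj_rr hab.1
  have hposlt : ∀ i : ℕ, i < N → pos i < N := by
    intro i hi
    simp only [pos]
    split_ifs <;> omega
  have hposinj : ∀ i i' : ℕ, i < N → i' < N → pos i = pos i' → i = i' := by
    intro i i' hi hi'
    simp only [pos]
    split_ifs <;> omega
  have hposK : j.val ≠ K → pos (K + 1) = pos K + 1 := by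
    intro h
    simp only [pos]
    split_ifs <;> omega
  have hfin3 : t = 0 ∨ t = 1 ∨ t = 2 := by
    have : ∀ t : Fin 3, t = 0 ∨ t = 1 ∨ t = 2 := by decide
    exact this t
  apply acyclic_of_rank _ r
  · -- ranks differ
    intro a b hab
    rcases a with a | a <;> rcases b with b | b
    · have := (hcc a b hab).1
      simp only [r]
      omega
    · rcases b with _ | ⟨h, l⟩
      · have h1 := hcz a hab
        have h2 := hposlt a.val a.isLt
        simp only [r]
        split_ifs with ht
        · omega
        · omega
      · have h2 := hposlt a.val a.isLt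
        simp only [r]
        omega
    · rcases a with _ | ⟨h, l⟩
      · have h2 := hposlt b.val b.isLt
        simp only [r]
        split_ifs with ht
        · omega
        · omega
      · have h2 := hposlt b.val b.isLt
        simp only [r]
        omega
    · exact absurd hab (hrr a b)
  · intro v a b hva hvb hra hrb
    rcases v with v | v
    · rcases a with a | a <;> rcases b with b | b
      · have h1 := (hcc v a hva).1
        have h2 := (hcc v b hvb).1
        simp only [r] at hra hrb
        have h3 : pos a.val = pos b.val := by omega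
        exact congrArg Sum.inl (Fin.ext (hposinj _ _ a.isLt b.isLt h3))
      · rcases b with _ | ⟨h, l⟩
        · have h1 := hcc v a hva
          have h2 := hcz v hvb
          have h3 := hposlt v.val v.isLt
          simp only [r] at hra hrb
          exfalso
          split_ifs at hrb with ht
          · have hjK : j.val ≠ K := fun h => hjt h ht
            have h4 := hposK hjK
            have h5 := h1.2 ht
            rcases h2 with ⟨h2, _⟩ | ⟨h2, _⟩
            · rw [h2] at hrb; omega
            · have h6 : pos a.val + 1 = pos v.val := by omega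
              rw [h2, h4] at h6
              have h7 := hposinj a.val K a.isLt (by omega) (by omega)
              omega
          · omega
        · have h3 := hposlt v.val v.isLt
          simp only [r] at hrb
          omega
      · rcases a with _ | ⟨h, l⟩
        · have h1 := hcc v b hvb
          have h2 := hcz v hva
          have h3 := hposlt v.val v.isLt
          simp only [r] at hra hrb
          exfalso
          split_ifs at hra with ht
          · have hjK : j.val ≠ K := fun h => hjt h ht
            have h4 := hposK hjK
            have h5 := h1.2 ht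
            rcases h2 with ⟨h2, _⟩ | ⟨h2, _⟩
            · rw [h2] at hra; omega
            · have h6 : pos b.val + 1 = pos v.val := by omega
              rw [h2, h4] at h6
              have h7 := hposinj b.val K b.isLt (by omega) (by omega)
              omega
          · omega
        · have h3 := hposlt v.val v.isLt
          simp only [r] at hra
          omega
      · have h3 := hposlt v.val v.isLt
        rcases a with _ | ⟨h, l⟩
        · rcases b with _ | ⟨h', l'⟩
          · rfl
          · simp only [r] at hrb
            omega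
        · simp only [r] at hra
          omega
    · rcases a with a | a
      · rcases b with b | b
        · rcases v with _ | ⟨h, l⟩
          · have h1 := hcz a hva.symm
            have h2 := hcz b hvb.symm
            simp only [r] at hra hrb
            have : a.val = b.val := by
              rcases hfin3 with ht | ht | ht
              · rw [if_pos ht] at hra hrb
                have hjK : j.val ≠ K := fun h => hjt h ht
                have h4 := hposK hjK
                rcases h1 with ⟨h1, _⟩ | ⟨h1, _⟩
                · rcases h2 with ⟨h2, _⟩ | ⟨h2, _⟩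
                  · omega
                  · rw [h2] at hrb; omega
                · rw [h1] at hra; omega
              · rcases h1 with ⟨h1, h1'⟩ | ⟨h1, _⟩
                · exact absurd ht h1'
                · rcases h2 with ⟨h2, h2'⟩ | ⟨h2, _⟩
                  · exact absurd ht h2'
                  · omega
              · rcases h1 with ⟨h1, h1'⟩ | ⟨h1, h1'⟩
                · rcases h2 with ⟨h2, h2'⟩ | ⟨h2, h2'⟩
                  · omega
                  · exact absurd ht h2'
                · exact absurd ht h1'
            exact congrArg Sum.inl (Fin.ext this)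
          · have h1 := hcl a h l hva.symm
            have h2 := hcl b h l hvb.symm
            exact congrArg Sum.inl (Fin.ext (h1.trans h2.symm))
        · exact absurd hvb (hrr v b)
      · exact absurd hva (hrr v a)

end

end MP589357
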