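import Pool.Agent.H755.MstClass

namespace MP589357

open SimpleGraph Finset

section
variable {K N L : ℕ}

theorem disj_Tri {a n b m : ℕ} (h : a + n ≤ b) : Disjoint (Tri a n) (Tri b m) := by
  rw [Finset.disjoint_left]
  rintro ⟨p, q⟩ h1 h2
  rw [mem_Tri] at h1 h2
  omega

theorem sum_J_false (f : Option (ℕ × ℕ) → ℤ) : ∑ g ∈ J K N false, f g =
    f none + (∑ x ∈ Tri 1 (2 * K), f (some x) +
      ∑ x ∈ Tri (2 * K + 2) (N - (2 * K + 2)), f (some x)) := by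
  simp only [J]
  rw [Finset.sum_insertNone, Finset.sum_union (disj_Tri (by omega))]

theorem sum_J_true (f : Option (ℕ × ℕ) → ℤ) : ∑ g ∈ J K N true, f g =
    f none + ((∑ x ∈ Tri 1 K, f (some x) + ∑ x ∈ Tri (K + 1) K, f (some x)) +
      ∑ x ∈ Tri (2 * K + 2) (N - (2 * K + 2)), f (some x)) := by
  simp only [J]
  rw [Finset.sum_insertNone, Finset.sum_union, Finset.sum_union (disj_Tri (by omega))]
  rw [Finset.disjoint_union_left]
  exact ⟨disj_Tri (by omega), disj_Tri (by omega)⟩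

/-- The number `c0` of codes. -/
def c0 (K N : ℕ) : ℤ := ∑ zb : Bool, ∑ _g ∈ J K N zb, (1 : ℤ)

/-- Total gap length of the codes. -/
def G0 (K N : ℕ) : ℤ := ∑ zb : Bool, ∑ g ∈ J K N zb, glen g

/-- Number of codes containing the apex. -/
def Z0 (K N : ℕ) : ℤ := ∑ zb : Bool, ∑ _g ∈ J K N zb, (if zb then (1 : ℤ) else 0)

theorem c0_eq (hN : 2 * K + 2 < N) : 2 * c0 K N =
    4 + 2 * K * (2 * K + 1) + 2 * K * (K + 1) +
      2 * (((N : ℤ) - (2 * K + 2)) * ((N : ℤ) - (2 * K + 2) + 1)) := by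
  unfold c0
  rw [Fintype.sum_bool, sum_J_true, sum_J_false]
  have h1 := card_Tri 1 (2 * K)
  have h2 := card_Tri 1 K
  have h3 := card_Tri (K + 1) K
  have h4 := card_Tri (2 * K + 2) (N - (2 * K + 2))
  rw [Nat.cast_sub (by omega)] at h4
  push_cast at h1 h2 h3 h4
  simp only [Finset.sum_const, nsmul_eq_mul, mul_one]
  linear_combination h1 + h2 + h3 + 2 * h4

theorem G0_eq (hN : 2 * K + 2 < N) : 6 * G0 K N =
    2 * K * (2 * K + 1) * (2 * K + 2) + 2 * K * (K + 1) * (K + 2) +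
      2 * (((N : ℤ) - (2 * K + 2)) * ((N : ℤ) - (2 * K + 2) + 1) * ((N : ℤ) - (2 * K + 2) + 2)) := by
  unfold G0
  rw [Fintype.sum_bool, sum_J_true, sum_J_false]
  have h1 := sum_len_Tri 1 (2 * K)
  have h2 := sum_len_Tri 1 K
  have h3 := sum_len_Tri (K + 1) K
  have h4 := sum_len_Tri (2 * K + 2) (N - (2 * K + 2))
  rw [Nat.cast_sub (by omega)] at h4
  push_cast at h1 h2 h3 h4
  simp only [glen]
  linear_combination h1 + h2 + h3 + 2 * h4

theorem Z0_eq (hN : 2 * K + 2 < N) : 2 * Z0 K N =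
    2 + 2 * K * (K + 1) + (((N : ℤ) - (2 * K + 2)) * ((N : ℤ) - (2 * K + 2) + 1)) := by
  unfold Z0
  rw [Fintype.sum_bool, sum_J_true, sum_J_false]
  have h2 := card_Tri 1 K
  have h3 := card_Tri (K + 1) K
  have h4 := card_Tri (2 * K + 2) (N - (2 * K + 2))
  rw [Nat.cast_sub (by omega)] at h4
  push_cast at h2 h3 h4
  simp only [Finset.sum_const, nsmul_eq_mul, mul_one, if_true, Bool.false_eq_true, if_false,
    mul_zero]
  linear_combination h2 + h3 + h4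

theorem card_good (hN : 2 * K + 2 < N) :
    ((good K N L hN).card : ℤ) = 2 ^ (2 * L) * c0 K N := by
  have h := sum_good (L := L) hN (fun _ => 1)
  rw [Finset.sum_const, nsmul_eq_mul, mul_one] at h
  rw [h]
  unfold c0
  rw [Finset.mul_sum]
  apply Finset.sum_congr rfl
  intro zb _
  rw [Finset.mul_sum]
  apply Finset.sum_congr rfl
  intro g _
  rw [card_leafsets, mul_one]

theorem sum_card_good (hN : 2 * K + 2 < N) : ∑ S ∈ good K N L hN, (S.card : ℤ) =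
    2 ^ (2 * L) * (((N : ℤ) + L) * c0 K N - G0 K N + Z0 K N) := by
  rw [sum_good hN (fun S => (S.card : ℤ))]
  have h1 : ∀ zb ∈ (Finset.univ : Finset Bool), ∑ g ∈ J K N zb,
      ∑ Λ : Finset (Bool × Fin L), ((Phi N g zb Λ).card : ℤ) =
      ∑ g ∈ J K N zb, (2 ^ (2 * L) * ((((N : ℤ) + L) * 1 - glen g) + (if zb then 1 else 0))) := by
    intro zb _
    apply Finset.sum_congr rfl
    intro g hg
    rw [sum_Phi_card g zb (okGap_of_mem hN hg)]
    ring
  rw [Finset.sum_congr rfl h1]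
  unfold c0 G0 Z0
  simp only [← Finset.mul_sum, Finset.sum_add_distrib, Finset.sum_sub_distrib]

/-- Codes of the sets containing the whole triangle but not the whole cycle. -/
def X (K N : ℕ) : Finset (ℕ × ℕ) :=
  (Tri 1 (K - 1) ∪ Tri (K + 2) (K - 1)) ∪ Tri (2 * K + 2) (N - (2 * K + 2))

theorem mem_X (hN : 2 * K + 2 < N) (hK : 1 ≤ K) {p q : ℕ} : (p, q) ∈ X K N ↔
    ((1 ≤ p ∧ p ≤ q ∧ q < K) ∨ (K + 2 ≤ p ∧ p ≤ q ∧ q ≤ 2 * K) ∨
      (2 * K + 2 ≤ p ∧ p ≤ q ∧ q < N)) := by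
  unfold X
  rw [Finset.mem_union, Finset.mem_union, mem_Tri, mem_Tri, mem_Tri]
  omega

theorem sum_X (f : ℕ × ℕ → ℤ) (hK : 1 ≤ K) : ∑ x ∈ X K N, f x =
    (∑ x ∈ Tri 1 (K - 1), f x + ∑ x ∈ Tri (K + 2) (K - 1), f x) +
      ∑ x ∈ Tri (2 * K + 2) (N - (2 * K + 2)), f x := by
  unfold X
  rw [Finset.sum_union, Finset.sum_union (disj_Tri (by omega))]
  rw [Finset.disjoint_union_left]
  exact ⟨disj_Tri (by omega), disj_Tri (by omega)⟩

/-- Number of triangle codes. -/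
def T0 (K N : ℕ) : ℤ := ∑ _x ∈ X K N, (1 : ℤ)

/-- Total gap length of the triangle codes. -/
def GX (K N : ℕ) : ℤ := ∑ x ∈ X K N, glen (some x)

theorem T0_eq (hN : 2 * K + 2 < N) (hK : 1 ≤ K) : 2 * T0 K N =
    2 * ((K : ℤ) - 1) * K + (((N : ℤ) - (2 * K + 2)) * ((N : ℤ) - (2 * K + 2) + 1)) := by
  unfold T0
  rw [sum_X _ hK]
  have h2 := card_Tri 1 (K - 1)
  have h3 := card_Tri (K + 2) (K - 1)
  have h4 := card_Tri (2 * K + 2) (N - (2 * K + 2))
  rw [Nat.cast_sub (by omega)] at h4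
  rw [Nat.cast_sub (by omega)] at h2 h3
  push_cast at h2 h3 h4
  simp only [Finset.sum_const, nsmul_eq_mul, mul_one]
  linear_combination h2 + h3 + h4

theorem GX_eq (hN : 2 * K + 2 < N) (hK : 1 ≤ K) : 6 * GX K N =
    2 * (((K : ℤ) - 1) * K * (K + 1)) +
      (((N : ℤ) - (2 * K + 2)) * ((N : ℤ) - (2 * K + 2) + 1) * ((N : ℤ) - (2 * K + 2) + 2)) := by
  unfold GX
  rw [sum_X _ hK]
  have h2 := sum_len_Tri 1 (K - 1)
  have h3 := sum_len_Tri (K + 2) (K - 1)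
  have h4 := sum_len_Tri (2 * K + 2) (N - (2 * K + 2))
  rw [Nat.cast_sub (by omega)] at h4
  rw [Nat.cast_sub (by omega)] at h2 h3
  push_cast at h2 h3 h4
  simp only [glen]
  linear_combination h2 + h3 + h4

end

end MP589357
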