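import Pool.Agent.H755.MstGraph

namespace MP589357

open SimpleGraph

section
variable {V : Type*}

/-- The subgraph with vertex set `S` and all edges of `G` inside `S` except those in `D`. -/
def sub (G : SimpleGraph V) (D : Set (Sym2 V)) (S : Set V) : G.Subgraph where
  verts := S
  Adj u v := u ∈ S ∧ v ∈ S ∧ G.Adj u v ∧ s(u, v) ∉ D
  adj_sub h := h.2.2.1
  edge_vert h := h.1
  symm := ⟨fun u v h => ⟨h.2.1, h.1, h.2.2.1.symm, by rw [Sym2.eq_swap]; exact h.2.2.2⟩⟩

theorem sub_adj (G : SimpleGraph V) (D : Set (Sym2 V)) (S : Set V) (u v : V) :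
    (sub G D S).Adj u v ↔ (u ∈ S ∧ v ∈ S ∧ G.Adj u v ∧ s(u, v) ∉ D) := Iff.rfl

theorem sub_acyclic {G : SimpleGraph V} {D D' : Set (Sym2 V)} {S : Set V}
    (ha : (G.deleteEdges D').IsAcyclic)
    (h : ∀ u v, (sub G D S).Adj u v → s(u, v) ∉ D') : (sub G D S).coe.IsAcyclic := by
  let f : (sub G D S).coe →g G.deleteEdges D' :=
    { toFun := fun x => x.1
      map_rel' := by
        intro a b hab
        have hab' : (sub G D S).Adj a.1 b.1 := by simpa using hab
        rw [deleteEdges_adj]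
        exact ⟨hab'.adj_sub, h _ _ hab'⟩ }
  exact ha.comap f Subtype.val_injective

theorem tree_eq {G : SimpleGraph V} {D : Set (Sym2 V)} {S : Set V} (H : G.Subgraph)
    (hv : H.verts = S) (hc : H.coe.Connected) (hD : ∀ u v, H.Adj u v → s(u, v) ∉ D)
    (ha : (sub G D S).coe.IsAcyclic) : H = sub G D S := by
  apply subgraph_unique H (sub G D S) hv _ hc ha
  intro u v h
  refine ⟨hv ▸ H.edge_vert h, hv ▸ H.edge_vert h.symm, h.adj_sub, hD u v h⟩

theorem sub_empty_connected {G : SimpleGraph V} {S : Set V} (h : (G.induce S).Connected) :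
    (sub G ∅ S).coe.Connected := by
  let f : G.induce S →g (sub G ∅ S).coe :=
    { toFun := fun x => x
      map_rel' := by
        intro a b hab
        have hab' : G.Adj a.1 b.1 := by simpa using hab
        show (sub G ∅ S).Adj a.1 b.1
        exact ⟨a.2, b.2, hab', by simp⟩ }
  exact h.map f (fun x => ⟨x, rfl⟩)

/-- Removing one edge of a triangle keeps connectivity. -/
theorem sub_triangle_connected {G : SimpleGraph V} {S : Set V} (h : (G.induce S).Connected)
    {p q r : V} (hp : p ∈ S) (hq : q ∈ S) (hr : r ∈ S) (hpr : G.Adj p r) (hrq : G.Adj r q)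
    (hpq : p ≠ q) :
    (sub G {s(p, q)} S).coe.Connected := by
  have hne : Nonempty (sub G {s(p, q)} S).verts := ⟨⟨p, hp⟩⟩
  have hadj1 : (sub G {s(p, q)} S).Adj p r := by
    refine ⟨hp, hr, hpr, ?_⟩
    intro hm
    rw [Set.mem_singleton_iff, Sym2.eq_iff] at hm
    rcases hm with ⟨_, h2⟩ | ⟨h1, _⟩
    · exact hrq.ne h2
    · exact hpq h1
  have hadj2 : (sub G {s(p, q)} S).Adj r q := by
    refine ⟨hr, hq, hrq, ?_⟩
    intro hm
    rw [Set.mem_singleton_iff, Sym2.eq_iff] at hm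
    rcases hm with ⟨h1, _⟩ | ⟨h1, h2⟩
    · exact hpr.ne h1.symm
    · exact hpq h2.symm
  have hreach : (sub G {s(p, q)} S).coe.Reachable ⟨p, hp⟩ ⟨q, hq⟩ := by
    have a1 : (sub G {s(p, q)} S).coe.Adj ⟨p, hp⟩ ⟨r, hr⟩ := by simpa using hadj1
    have a2 : (sub G {s(p, q)} S).coe.Adj ⟨r, hr⟩ ⟨q, hq⟩ := by simpa using hadj2
    exact a1.reachable.trans a2.reachable
  have hstep : ∀ a b : S, (G.induce S).Adj a b → (sub G {s(p, q)} S).coe.Reachable a b := by
    intro a b hab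
    have hab' : G.Adj a.1 b.1 := by simpa using hab
    by_cases hcase : s(a.1, b.1) = s(p, q)
    · rw [Sym2.eq_iff] at hcase
      rcases hcase with ⟨h1, h2⟩ | ⟨h1, h2⟩
      · have e1 : a = ⟨p, hp⟩ := Subtype.ext h1
        have e2 : b = ⟨q, hq⟩ := Subtype.ext h2
        rw [e1, e2]; exact hreach
      · have e1 : a = ⟨q, hq⟩ := Subtype.ext h1
        have e2 : b = ⟨p, hp⟩ := Subtype.ext h2
        rw [e1, e2]; exact hreach.symm
    · have : (sub G {s(p, q)} S).coe.Adj a b := by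
        show (sub G {s(p, q)} S).Adj a.1 b.1
        exact ⟨a.2, b.2, hab', hcase⟩
      exact this.reachable
  have := hne
  refine ⟨?_⟩
  intro a b
  exact reach_of_adj_reach hstep (h.preconnected a b)

/-- Every connected vertex set carries a spanning tree. -/
theorem treesOn_pos [Fintype V] {G : SimpleGraph V} {S : Finset V} (hS : S ∈ connectedSets G) :
    0 < (treesOn G S).card := by
  rw [mem_connectedSets] at hS
  obtain ⟨T, hT, hTt⟩ := hS.exists_isTree_le
  rw [Finset.card_pos]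
  let H : G.Subgraph :=
    { verts := (S : Set V)
      Adj := fun u v => ∃ (hu : u ∈ (S : Set V)) (hv : v ∈ (S : Set V)), T.Adj ⟨u, hu⟩ ⟨v, hv⟩
      adj_sub := by
        rintro u v ⟨hu, hv, h⟩
        have := hT h
        simpa using this
      edge_vert := by
        rintro u v ⟨hu, hv, h⟩
        exact hu
      symm := ⟨by
        rintro u v ⟨hu, hv, h⟩
        exact ⟨hv, hu, h.symm⟩⟩ }
  refine ⟨H, ?_⟩
  rw [mem_treesOn]
  refine ⟨?_, rfl⟩
  have : H.coe = T := by
    ext a b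
    constructor
    · intro h
      have h' : H.Adj a.1 b.1 := by simpa using h
      obtain ⟨hu, hv, h2⟩ := h'
      exact h2
    · intro h
      show H.Adj a.1 b.1
      exact ⟨a.2, b.2, h⟩
  rw [this]
  exact hTt

end

section
variable {K N L : ℕ}

theorem not_mem_of_endpoint {V : Type*} {S : Set V} {a b p q : V} (ha : a ∈ S) (hb : b ∈ S)
    (h : p ∉ S ∨ q ∉ S) : s(a, b) ≠ s(p, q) := by
  intro he
  rw [Sym2.eq_iff] at he
  rcases he with ⟨rfl, rfl⟩ | ⟨rfl, rfl⟩
  · rcases h with h | h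
    · exact h ha
    · exact h hb
  · rcases h with h | h
    · exact h hb
    · exact h ha

theorem te_zero (hK : K + 1 < N) : te hK L 0 = s(Sum.inl ⟨K, by omega⟩, Sum.inl ⟨K + 1, hK⟩) := by
  simp [te]

theorem te_one (hK : K + 1 < N) : te hK L 1 = s(Sum.inl ⟨K, by omega⟩, Sum.inr none) := by
  simp [te]

theorem te_two (hK : K + 1 < N) : te hK L 2 = s(Sum.inl ⟨K + 1, hK⟩, Sum.inr none) := by
  simp [te]

/-- Exactly one spanning tree if the set misses a cycle vertex and a vertex of the triangle. -/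
theorem tau_one (hK : K + 1 < N) (hN : 2 * K + 2 < N) (hK2 : 2 ≤ K) {S : Finset (Vx N L)}
    (hS : S ∈ connectedSets (gr K N L)) (u : Fin N) (hu : Sum.inl u ∉ S)
    (hm : (Sum.inl ⟨K, by omega⟩ : Vx N L) ∉ S ∨ (Sum.inl ⟨K + 1, hK⟩ : Vx N L) ∉ S ∨
      (Sum.inr none : Vx N L) ∉ S) : (treesOn (gr K N L) S).card = 1 := by
  have hac : (sub (gr K N L) ∅ (S : Set (Vx N L))).coe.IsAcyclic := by
    have hgen : ∀ t : Fin 3, t ≠ 0 →
        (∀ a b : Vx N L, a ∈ (S : Set (Vx N L)) → b ∈ (S : Set (Vx N L)) → s(a, b) ≠ te hK L t) →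
        (sub (gr K N L) ∅ (S : Set (Vx N L))).coe.IsAcyclic := by
      intro t ht hne
      apply sub_acyclic (acyc hK hN hK2 u t (fun _ => ht))
      rintro a b ⟨ha, hb, _, _⟩ hmem
      rcases hmem with hmem | hmem
      · exact not_mem_of_endpoint ha hb (Or.inl (by simpa using hu)) hmem
      · exact hne a b ha hb hmem
    rcases hm with hm | hm | hm
    · apply hgen 1 (by decide)
      intro a b ha hb
      rw [te_one]
      exact not_mem_of_endpoint ha hb (Or.inl (by simpa using hm))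
    · apply hgen 2 (by decide)
      intro a b ha hb
      rw [te_two]
      exact not_mem_of_endpoint ha hb (Or.inl (by simpa using hm))
    · apply hgen 1 (by decide)
      intro a b ha hb
      rw [te_one]
      exact not_mem_of_endpoint ha hb (Or.inr (by simpa using hm))
  have hconn := sub_empty_connected (mem_connectedSets.mp hS)
  rw [Finset.card_eq_one]
  refine ⟨sub (gr K N L) ∅ (S : Set (Vx N L)), ?_⟩
  ext H
  rw [Finset.mem_singleton, mem_treesOn]
  constructor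
  · rintro ⟨h1, h2⟩
    exact tree_eq H h2 h1.connected (fun _ _ _ => by simp) hac
  · rintro rfl
    exact ⟨⟨hconn, hac⟩, rfl⟩

/-- A tree subgraph misses an edge of the triangle. -/
theorem misses_triangle (hK : K + 1 < N) {H : (gr K N L).Subgraph}
    (ha : H.coe.IsAcyclic) : ∃ t : Fin 3, ∀ u v, H.Adj u v → s(u, v) ≠ te hK L t := by
  by_contra hcon
  push Not at hcon
  have h0 := hcon 0
  have h1 := hcon 1
  have h2 := hcon 2
  rw [te_zero] at h0
  rw [te_one] at h1
  rw [te_two] at h2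
  have e0 : H.Adj (Sum.inl ⟨K, by omega⟩) (Sum.inl ⟨K + 1, hK⟩) := by
    obtain ⟨u, v, h, e⟩ := h0
    rw [Sym2.eq_iff] at e
    rcases e with ⟨rfl, rfl⟩ | ⟨rfl, rfl⟩
    · exact h
    · exact h.symm
  have e1 : H.Adj (Sum.inl ⟨K, by omega⟩) (Sum.inr none) := by
    obtain ⟨u, v, h, e⟩ := h1
    rw [Sym2.eq_iff] at e
    rcases e with ⟨rfl, rfl⟩ | ⟨rfl, rfl⟩
    · exact h
    · exact h.symm
  have e2 : H.Adj (Sum.inl ⟨K + 1, hK⟩) (Sum.inr none) := by
    obtain ⟨u, v, h, e⟩ := h2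
    rw [Sym2.eq_iff] at e
    rcases e with ⟨rfl, rfl⟩ | ⟨rfl, rfl⟩
    · exact h
    · exact h.symm
  have hx : (Sum.inl ⟨K, by omega⟩ : Vx N L) ∈ H.verts := H.edge_vert e0
  have hy : (Sum.inl ⟨K + 1, hK⟩ : Vx N L) ∈ H.verts := H.edge_vert e0.symm
  have hz : (Sum.inr none : Vx N L) ∈ H.verts := H.edge_vert e1.symm
  have a0 : H.coe.Adj ⟨_, hx⟩ ⟨_, hy⟩ := by simpa using e0
  have a1 : H.coe.Adj ⟨_, hx⟩ ⟨_, hz⟩ := by simpa using e1
  have a2 : H.coe.Adj ⟨_, hy⟩ ⟨_, hz⟩ := by simpa using e2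
  refine acyclic_no_detour ha a0 (H.coe.deleteEdges {s(⟨_, hx⟩, ⟨_, hy⟩)})
    (fun a b h => (deleteEdges_adj.mp h).1) ?_ ?_
  · rw [deleteEdges_adj]
    simp
  · have b1 : (H.coe.deleteEdges {s(⟨_, hx⟩, ⟨_, hy⟩)}).Adj ⟨_, hx⟩ ⟨_, hz⟩ := by
      rw [deleteEdges_adj]
      refine ⟨a1, ?_⟩
      simp
    have b2 : (H.coe.deleteEdges {s(⟨_, hx⟩, ⟨_, hy⟩)}).Adj ⟨_, hy⟩ ⟨_, hz⟩ := by
      rw [deleteEdges_adj]
      refine ⟨a2, ?_⟩
      simp
    exact b1.reachable.trans b2.symm.reachable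

end

end MP589357
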