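import Pool.Agent.H755.MstTau

namespace MP589357

open SimpleGraph

section
variable {K N L : ℕ}

theorem te_inj (hK : K + 1 < N) : ∀ s t : Fin 3, te hK L s = te hK L t → s = t := by
  have h01 : te hK L 0 ≠ te hK L 1 := by
    rw [te_zero, te_one]
    intro h
    rw [Sym2.eq_iff] at h
    rcases h with ⟨_, h⟩ | ⟨h, _⟩ <;> cases h
  have h02 : te hK L 0 ≠ te hK L 2 := by
    rw [te_zero, te_two]
    intro h
    rw [Sym2.eq_iff] at h
    rcases h with ⟨_, h⟩ | ⟨h, _⟩ <;> cases h
  have h12 : te hK L 1 ≠ te hK L 2 := by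
    rw [te_one, te_two]
    intro h
    rw [Sym2.eq_iff] at h
    rcases h with ⟨h, _⟩ | ⟨h, _⟩
    · have := congrArg Fin.val (Sum.inl.inj h)
      simp at this
    · cases h
  intro s t h
  have hs : s = 0 ∨ s = 1 ∨ s = 2 := by
    have : ∀ t : Fin 3, t = 0 ∨ t = 1 ∨ t = 2 := by decide
    exact this s
  have ht : t = 0 ∨ t = 1 ∨ t = 2 := by
    have : ∀ t : Fin 3, t = 0 ∨ t = 1 ∨ t = 2 := by decide
    exact this t
  rcases hs with rfl | rfl | rfl <;> rcases ht with rfl | rfl | rfl
  · rfl
  · exact absurd h h01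
  · exact absurd h h02
  · exact absurd h.symm h01
  · rfl
  · exact absurd h h12
  · exact absurd h.symm h02
  · exact absurd h.symm h12
  · rfl

/-- Exactly three spanning trees if the set contains the triangle and misses a cycle vertex. -/
theorem tau_three (hK : K + 1 < N) (hN : 2 * K + 2 < N) (hK2 : 2 ≤ K) {S : Finset (Vx N L)}
    (hS : S ∈ connectedSets (gr K N L)) (u : Fin N) (hu : Sum.inl u ∉ S)
    (hx : (Sum.inl ⟨K, by omega⟩ : Vx N L) ∈ S) (hy : (Sum.inl ⟨K + 1, hK⟩ : Vx N L) ∈ S)
    (hz : (Sum.inr none : Vx N L) ∈ S) : (treesOn (gr K N L) S).card = 3 := by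
  classical
  have hN3 : 3 ≤ N := by omega
  have hx' : (Sum.inl ⟨K, by omega⟩ : Vx N L) ∈ (S : Set (Vx N L)) := by simpa using hx
  have hy' : (Sum.inl ⟨K + 1, hK⟩ : Vx N L) ∈ (S : Set (Vx N L)) := by simpa using hy
  have hz' : (Sum.inr none : Vx N L) ∈ (S : Set (Vx N L)) := by simpa using hz
  have hS' := mem_connectedSets.mp hS
  have hxy : (gr K N L).Adj (Sum.inl ⟨K, by omega⟩) (Sum.inl ⟨K + 1, hK⟩) := by
    rw [adj_cc hN3]; left; left; rfl
  have hxz : (gr K N L).Adj (Sum.inl ⟨K, by omega⟩) (Sum.inr none) := by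
    rw [adj_cz]; left; rfl
  have hyz : (gr K N L).Adj (Sum.inl ⟨K + 1, hK⟩) (Sum.inr none) := by
    rw [adj_cz]; right; rfl
  have huK : u.val ≠ K := by
    intro h
    apply hu
    have : u = ⟨K, by omega⟩ := Fin.ext h
    rw [this]; exact hx
  have hac : ∀ t : Fin 3, (sub (gr K N L) {te hK L t} (S : Set (Vx N L))).coe.IsAcyclic := by
    intro t
    apply sub_acyclic (acyc hK hN hK2 u t (fun h => absurd h huK))
    rintro a b ⟨ha, hb, _, hne⟩ hmem
    rcases hmem with hmem | hmem
    · exact not_mem_of_endpoint ha hb (Or.inl (by simpa using hu)) hmem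
    · exact hne hmem
  have hconn : ∀ t : Fin 3, (sub (gr K N L) {te hK L t} (S : Set (Vx N L))).coe.Connected := by
    intro t
    have ht : t = 0 ∨ t = 1 ∨ t = 2 := by
      have : ∀ t : Fin 3, t = 0 ∨ t = 1 ∨ t = 2 := by decide
      exact this t
    rcases ht with rfl | rfl | rfl
    · rw [te_zero]
      exact sub_triangle_connected hS' hx' hy' hz' hxz hyz.symm hxy.ne
    · rw [te_one]
      exact sub_triangle_connected hS' hx' hz' hy' hxy hyz hxz.ne
    · rw [te_two]
      exact sub_triangle_connected hS' hy' hz' hx' hxy.symm hxz hyz.ne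
  have himg : treesOn (gr K N L) S =
      Finset.univ.image (fun t : Fin 3 => sub (gr K N L) {te hK L t} (S : Set (Vx N L))) := by
    ext H
    rw [mem_treesOn, Finset.mem_image]
    constructor
    · rintro ⟨h1, h2⟩
      obtain ⟨t, ht⟩ := misses_triangle hK h1.isAcyclic
      refine ⟨t, Finset.mem_univ _, ?_⟩
      exact (tree_eq H h2 h1.connected (fun a b hab => by simpa using ht a b hab) (hac t)).symm
    · rintro ⟨t, _, rfl⟩
      exact ⟨⟨hconn t, hac t⟩, rfl⟩
  rw [himg, Finset.card_image_of_injective]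
  · simp
  · intro s t hst
    by_contra hne
    have hne' : te hK L s ≠ te hK L t := fun h => hne (te_inj hK s t h)
    -- the edge te s is in the second graph but not in the first
    have hmain : ∀ a b : Vx N L, a ∈ (S : Set (Vx N L)) → b ∈ (S : Set (Vx N L)) →
        (gr K N L).Adj a b → te hK L s = s(a, b) → False := by
      intro a b ha hb hab he
      have h1 : (sub (gr K N L) {te hK L t} (S : Set (Vx N L))).Adj a b := by
        refine ⟨ha, hb, hab, ?_⟩
        rw [Set.mem_singleton_iff, ← he]
        exact hne'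
      have h2 : (sub (gr K N L) {te hK L s} (S : Set (Vx N L))).Adj a b := by
        have hst' : sub (gr K N L) {te hK L s} (S : Set (Vx N L)) =
          sub (gr K N L) {te hK L t} (S : Set (Vx N L)) := hst
        rw [hst']; exact h1
      exact h2.2.2.2 (by rw [Set.mem_singleton_iff, he])
    have hs : s = 0 ∨ s = 1 ∨ s = 2 := by
      have : ∀ t : Fin 3, t = 0 ∨ t = 1 ∨ t = 2 := by decide
      exact this s
    rcases hs with rfl | rfl | rfl
    · exact hmain _ _ hx' hy' hxy (te_zero hK)
    · exact hmain _ _ hx' hz' hxz (te_one hK)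
    · exact hmain _ _ hy' hz' hyz (te_two hK)

/-- If a subgraph contains all cycle edges except possibly the one starting at `K`, then in any
supergraph `B` containing these edges the two ends are joined. -/
theorem around (hK : K + 1 < N) (hN3 : 3 ≤ N) {α : Type*} (B : SimpleGraph α)
    (f : Fin N → α) (hB : ∀ i : Fin N, i.val ≠ K → B.Adj (f i) (f (nxt i))) :
    B.Reachable (f ⟨K, by omega⟩) (f ⟨K + 1, hK⟩) := by
  -- from K+1 upwards to N-1
  have hup : ∀ d : ℕ, ∀ h : K + 1 + d < N, B.Reachable (f ⟨K + 1, hK⟩) (f ⟨K + 1 + d, h⟩) := by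
    intro d
    induction d with
    | zero => intro h; exact Reachable.refl _
    | succ d ih =>
      intro h
      have h1 := ih (by omega)
      have h2 := hB ⟨K + 1 + d, by omega⟩ (by simp; omega)
      have h3 : nxt (⟨K + 1 + d, by omega⟩ : Fin N) = ⟨K + 1 + (d + 1), h⟩ := by
        apply Fin.ext
        rw [nxt_val]
        simp only
        rw [if_pos (by omega)]
        omega
      rw [h3] at h2
      exact h1.trans h2.reachable
  have hlow : ∀ d : ℕ, ∀ h : d ≤ K, B.Reachable (f ⟨0, by omega⟩) (f ⟨d, by omega⟩) := by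
    intro d
    induction d with
    | zero => intro h; exact Reachable.refl _
    | succ d ih =>
      intro h
      have h1 := ih (by omega)
      have h2 := hB ⟨d, by omega⟩ (by simp; omega)
      have h3 : nxt (⟨d, by omega⟩ : Fin N) = ⟨d + 1, by omega⟩ := by
        apply Fin.ext
        rw [nxt_val]
        simp only
        rw [if_pos (by omega)]
      rw [h3] at h2
      exact h1.trans h2.reachable
  have h1 := hup (N - 1 - (K + 1)) (by omega)
  have h2 := hlow K le_rfl
  have h3 := hB ⟨K + 1 + (N - 1 - (K + 1)), by omega⟩ (by simp; omega)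
  have h4 : nxt (⟨K + 1 + (N - 1 - (K + 1)), by omega⟩ : Fin N) = ⟨0, by omega⟩ := by
    apply Fin.ext
    rw [nxt_val]
    simp only
    rw [if_neg (by omega)]
  rw [h4] at h3
  exact (h1.trans (h3.reachable.trans h2)).symm

theorem nxt_ne (hN3 : 3 ≤ N) (i : Fin N) : nxt i ≠ i := by
  intro h
  have := congrArg Fin.val h
  rw [nxt_val] at this
  have := i.isLt
  split_ifs at * <;> omega

theorem ce_eq (hK : K + 1 < N) (j : Fin N) (hj : j.val = K) :
    ce L j = s(Sum.inl ⟨K, by omega⟩, Sum.inl ⟨K + 1, hK⟩) := by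
  unfold ce
  have h1 : j = ⟨K, by omega⟩ := Fin.ext hj
  have h2 : nxt j = ⟨K + 1, hK⟩ := by
    apply Fin.ext
    rw [nxt_val, hj, if_pos hK]
  rw [h2]
  exact congrArg (fun a : Vx N L => s(a, Sum.inl ⟨K + 1, hK⟩)) (congrArg Sum.inl h1)

/-- A tree subgraph on a set containing the cycle misses a cycle edge and another triangle edge. -/
theorem misses_pair (hK : K + 1 < N) (hN : 2 * K + 2 < N)
    {H : (gr K N L).Subgraph} (ha : H.coe.IsAcyclic)
    (hcyc : ∀ i : Fin N, (Sum.inl i : Vx N L) ∈ H.verts) :
    ∃ (j : Fin N) (t : Fin 3), (j.val = K → t ≠ 0) ∧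
      ∀ u v, H.Adj u v → s(u, v) ∉ ({ce L j, te hK L t} : Set (Sym2 (Vx N L))) := by
  have hN3 : 3 ≤ N := by omega
  obtain ⟨t, ht⟩ := misses_triangle hK ha
  by_cases hex : ∃ j : Fin N, j.val ≠ K ∧ ¬ H.Adj (Sum.inl j) (Sum.inl (nxt j))
  · obtain ⟨j, hj, hnj⟩ := hex
    refine ⟨j, t, fun h => absurd h hj, ?_⟩
    intro u v huv hmem
    rcases hmem with hmem | hmem
    · unfold ce at hmem
      rw [Sym2.eq_iff] at hmem
      rcases hmem with ⟨rfl, rfl⟩ | ⟨rfl, rfl⟩
      · exact hnj huv
      · exact hnj huv.symm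
    · exact ht u v huv hmem
  · push Not at hex
    let f : Fin N → H.verts := fun i => ⟨Sum.inl i, hcyc i⟩
    -- the edge K -- K+1 is missing
    have hxy : ¬ H.Adj (Sum.inl ⟨K, by omega⟩) (Sum.inl ⟨K + 1, hK⟩) := by
      intro hadj
      have a0 : H.coe.Adj (f ⟨K, by omega⟩) (f ⟨K + 1, hK⟩) := by
        show H.Adj _ _
        exact hadj
      refine acyclic_no_detour ha a0
        (H.coe.deleteEdges {s(f ⟨K, by omega⟩, f ⟨K + 1, hK⟩)})
        (fun a b h => (deleteEdges_adj.mp h).1) ?_ ?_
      · rw [deleteEdges_adj]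
        simp
      · apply around hK hN3
        intro i hi
        rw [deleteEdges_adj]
        refine ⟨?_, ?_⟩
        · show H.Adj _ _
          exact hex i hi
        · intro hmem
          rw [Set.mem_singleton_iff, Sym2.eq_iff] at hmem
          rcases hmem with ⟨e1, _⟩ | ⟨e1, e2⟩
          · have := Sum.inl.inj (congrArg Subtype.val e1)
            exact hi (congrArg Fin.val this)
          · have h1 := congrArg Fin.val (Sum.inl.inj (congrArg Subtype.val e1))
            have h2 := congrArg Fin.val (Sum.inl.inj (congrArg Subtype.val e2))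
            rw [nxt_val] at h2
            simp only at h1 h2
            split_ifs at h2 <;> omega
    by_cases hxz : H.Adj (Sum.inl ⟨K, by omega⟩) (Sum.inr none)
    · -- then K+1 -- apex is missing
      have hyz : ¬ H.Adj (Sum.inl ⟨K + 1, hK⟩) (Sum.inr none) := by
        intro hyz
        have hz : (Sum.inr none : Vx N L) ∈ H.verts := H.edge_vert hyz.symm
        have a0 : H.coe.Adj (f ⟨K, by omega⟩) ⟨_, hz⟩ := by
          show H.Adj _ _
          exact hxz
        refine acyclic_no_detour ha a0
          (H.coe.deleteEdges {s(f ⟨K, by omega⟩, ⟨_, hz⟩)})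
          (fun a b h => (deleteEdges_adj.mp h).1) ?_ ?_
        · rw [deleteEdges_adj]
          simp
        · have hr := around hK hN3 (H.coe.deleteEdges {s(f ⟨K, by omega⟩, ⟨_, hz⟩)}) f (by
            intro i hi
            rw [deleteEdges_adj]
            refine ⟨?_, ?_⟩
            · show H.Adj _ _
              exact hex i hi
            · intro hmem
              rw [Set.mem_singleton_iff, Sym2.eq_iff] at hmem
              rcases hmem with ⟨_, e2⟩ | ⟨e1, _⟩
              · have := congrArg Subtype.val e2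
                cases this
              · have := congrArg Subtype.val e1
                cases this)
          refine hr.trans ?_
          apply Adj.reachable
          rw [deleteEdges_adj]
          refine ⟨?_, ?_⟩
          · show H.Adj _ _
            exact hyz
          · intro hmem
            rw [Set.mem_singleton_iff, Sym2.eq_iff] at hmem
            rcases hmem with ⟨e1, _⟩ | ⟨e1, _⟩
            · have := congrArg Fin.val (Sum.inl.inj (congrArg Subtype.val e1))
              simp at this
            · have := congrArg Subtype.val e1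
              cases this
      refine ⟨⟨K, by omega⟩, 2, fun _ => by decide, ?_⟩
      intro u v huv hmem
      rcases hmem with hmem | hmem
      · rw [ce_eq hK _ rfl, Sym2.eq_iff] at hmem
        rcases hmem with ⟨rfl, rfl⟩ | ⟨rfl, rfl⟩
        · exact hxy huv
        · exact hxy huv.symm
      · rw [Set.mem_singleton_iff, te_two, Sym2.eq_iff] at hmem
        rcases hmem with ⟨rfl, rfl⟩ | ⟨rfl, rfl⟩
        · exact hyz huv
        · exact hyz huv.symm
    · refine ⟨⟨K, by omega⟩, 1, fun _ => by decide, ?_⟩
      intro u v huv hmem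
      rcases hmem with hmem | hmem
      · rw [ce_eq hK _ rfl, Sym2.eq_iff] at hmem
        rcases hmem with ⟨rfl, rfl⟩ | ⟨rfl, rfl⟩
        · exact hxy huv
        · exact hxy huv.symm
      · rw [Set.mem_singleton_iff, te_one, Sym2.eq_iff] at hmem
        rcases hmem with ⟨rfl, rfl⟩ | ⟨rfl, rfl⟩
        · exact hxz huv
        · exact hxz huv.symm

/-- At most `3N` spanning trees if the set contains the whole cycle. -/
theorem tau_le (hK : K + 1 < N) (hN : 2 * K + 2 < N) (hK2 : 2 ≤ K) {S : Finset (Vx N L)}
    (hcyc : ∀ i : Fin N, (Sum.inl i : Vx N L) ∈ S) : (treesOn (gr K N L) S).card ≤ 3 * N := by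
  classical
  have hsub : treesOn (gr K N L) S ⊆
      (Finset.univ : Finset (Fin N × Fin 3)).image
        (fun p => sub (gr K N L) {ce L p.1, te hK L p.2} (S : Set (Vx N L))) := by
    intro H hH
    rw [mem_treesOn] at hH
    obtain ⟨h1, h2⟩ := hH
    obtain ⟨j, t, hjt, hm⟩ := misses_pair hK hN h1.isAcyclic (fun i => by
      rw [h2]; simpa using hcyc i)
    rw [Finset.mem_image]
    refine ⟨(j, t), Finset.mem_univ _, ?_⟩
    have hac : (sub (gr K N L) {ce L j, te hK L t} (S : Set (Vx N L))).coe.IsAcyclic := by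
      apply sub_acyclic (acyc hK hN hK2 j t hjt)
      rintro a b ⟨_, _, _, hne⟩
      exact hne
    exact (tree_eq H h2 h1.connected hm hac).symm
  calc (treesOn (gr K N L) S).card ≤ _ := Finset.card_le_card hsub
    _ ≤ (Finset.univ : Finset (Fin N × Fin 3)).card := Finset.card_image_le
    _ = 3 * N := by simp [mul_comm]

end

end MP589357
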